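import Mathlib

/-!
NCS: a nonzero element of a space of polynomials of dimension `d` does not vanish at all of the
points `ρ, 2 ρ, ..., 2 ^ (d - 1) ρ` if `ρ` is generic.
-/

set_option autoImplicit false

namespace Pool.Agent.NCS

open Polynomial

variable {K : Type*} [Field K]

/-- `g(2 x)`. -/
noncomputable def dil (g : K[X]) : K[X] := g.comp (C 2 * X)

theorem dil_coeff (g : K[X]) (m : ℕ) : (dil g).coeff m = g.coeff m * 2 ^ m := by
  rw [dil, Polynomial.comp_C_mul_X_coeff]

theorem dil_eval (g : K[X]) (x : K) : (dil g).eval x = g.eval (2 * x) := by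
  rw [dil, Polynomial.eval_comp, Polynomial.eval_mul, Polynomial.eval_C, Polynomial.eval_X]

theorem dil_natDegree [CharZero K] (g : K[X]) : (dil g).natDegree = g.natDegree := by
  rw [dil, Polynomial.natDegree_comp, Polynomial.natDegree_C_mul_X 2 two_ne_zero, mul_one]

theorem dil_lead [CharZero K] (g : K[X]) :
    (dil g).leadingCoeff = g.leadingCoeff * 2 ^ g.natDegree := by
  rw [Polynomial.leadingCoeff, dil_natDegree, dil_coeff]
  rfl

theorem dil_ne_zero [CharZero K] (g : K[X]) (h : g ≠ 0) : dil g ≠ 0 := by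
  intro h1
  have h2 := dil_lead g
  rw [h1, Polynomial.leadingCoeff_zero] at h2
  rcases mul_eq_zero.1 h2.symm with h3 | h3
  · exact h (Polynomial.leadingCoeff_eq_zero.1 h3)
  · exact pow_ne_zero _ two_ne_zero h3

theorem deg_eq [CharZero K] (f g : K[X]) (hf : f ≠ 0) (hg : g ≠ 0) (h : dil g * f = g * dil f) :
    g.natDegree = f.natDegree := by
  have h1 := congrArg Polynomial.leadingCoeff h
  rw [Polynomial.leadingCoeff_mul, Polynomial.leadingCoeff_mul, dil_lead, dil_lead] at h1
  have hf' : f.leadingCoeff ≠ 0 := Polynomial.leadingCoeff_ne_zero.2 hf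
  have hg' : g.leadingCoeff ≠ 0 := Polynomial.leadingCoeff_ne_zero.2 hg
  have h2 : (2 : K) ^ g.natDegree = 2 ^ f.natDegree := by
    have h3 : g.leadingCoeff * f.leadingCoeff * (2 : K) ^ g.natDegree =
        g.leadingCoeff * f.leadingCoeff * 2 ^ f.natDegree := by
      rw [mul_assoc, mul_assoc, mul_comm f.leadingCoeff (2 ^ g.natDegree), ← mul_assoc, h1]
    exact mul_left_cancel₀ (mul_ne_zero hg' hf') h3
  have h4 : ((2 ^ g.natDegree : ℕ) : K) = ((2 ^ f.natDegree : ℕ) : K) := by
    push_cast
    exact h2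
  exact Nat.pow_right_injective (le_refl 2) (Nat.cast_injective h4)

theorem dil_kernel [CharZero K] (f g : K[X]) (hf : f ≠ 0) (h : dil g * f = g * dil f) :
    ∃ c : K, g = c • f := by
  by_cases hg : g = 0
  · exact ⟨0, by rw [hg, zero_smul]⟩
  have h1 := deg_eq f g hf hg h
  refine ⟨g.leadingCoeff / f.leadingCoeff, ?_⟩
  set c := g.leadingCoeff / f.leadingCoeff with hc
  have hf' : f.leadingCoeff ≠ 0 := Polynomial.leadingCoeff_ne_zero.2 hf
  by_contra hne
  have h2 : g - c • f ≠ 0 := fun h3 => hne (sub_eq_zero.1 h3)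
  have h3 : dil (g - c • f) = dil g - c • dil f := by
    rw [dil, Polynomial.sub_comp, Polynomial.smul_comp]
    rfl
  have h4 := deg_eq f (g - c • f) hf h2 (by
    rw [h3, sub_mul, sub_mul, h, smul_mul_assoc, smul_mul_assoc, mul_comm (dil f) f])
  have h5 : (g - c • f).coeff f.natDegree = 0 := by
    rw [Polynomial.coeff_sub, Polynomial.coeff_smul, smul_eq_mul]
    have h6 : g.coeff f.natDegree = g.leadingCoeff := by rw [← h1]; rfl
    have h7 : f.coeff f.natDegree = f.leadingCoeff := rfl
    rw [h6, h7, hc, div_mul_cancel₀ _ hf', sub_self]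
  rw [← h4] at h5
  exact h2 (Polynomial.leadingCoeff_eq_zero.1 h5)

/-- The operator `g ↦ g(2 x) f(x) - g(x) f(2 x)`. -/
noncomputable def th (f : K[X]) : K[X] →ₗ[K] K[X] where
  toFun g := dil g * f - g * dil f
  map_add' g g' := by
    rw [dil, Polynomial.add_comp]
    simp only [dil]
    ring
  map_smul' c g := by
    rw [dil, Polynomial.smul_comp, smul_mul_assoc, smul_mul_assoc, RingHom.id_apply, smul_sub]
    rfl

theorem th_apply (f g : K[X]) : th f g = dil g * f - g * dil f := rfl

/-- **The `q`-Wronskian lemma.** -/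
theorem qw [CharZero K] (d : ℕ) : ∀ (F : Submodule K K[X]), FiniteDimensional K F →
    Module.finrank K F ≤ d → ∃ W : K[X], W ≠ 0 ∧ ∀ ρ : K, W.eval ρ ≠ 0 →
      ∀ g ∈ F, (∀ l < d, g.eval (2 ^ l * ρ) = 0) → g = 0 := by
  induction d with
  | zero =>
    intro F hF hd
    refine ⟨1, one_ne_zero, fun ρ _ g hg _ => ?_⟩
    have h1 : F = ⊥ := Submodule.finrank_eq_zero.1 (Nat.le_zero.1 hd)
    rw [h1] at hg
    exact (Submodule.mem_bot K).1 hg
  | succ d ih =>
    intro F hF hd
    by_cases h0 : F = ⊥
    · refine ⟨1, one_ne_zero, fun ρ _ g hg _ => ?_⟩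
      rw [h0] at hg
      exact (Submodule.mem_bot K).1 hg
    obtain ⟨f, hfF, hf⟩ := (Submodule.ne_bot_iff F).1 h0
    have hfd : FiniteDimensional K (F.map (th f)) := inferInstance
    have hlt : Module.finrank K (F.map (th f)) ≤ d := by
      have h1 : Module.finrank K (F.map (th f)) < Module.finrank K F := by
        have h2 := LinearMap.finrank_range_add_finrank_ker ((th f).domRestrict F)
        have h3 : LinearMap.range ((th f).domRestrict F) = F.map (th f) := by
          rw [LinearMap.range_domRestrict]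
        rw [h3] at h2
        have h4 : Module.finrank K (LinearMap.ker ((th f).domRestrict F)) ≠ 0 := by
          intro h5
          have h6 : LinearMap.ker ((th f).domRestrict F) = ⊥ := Submodule.finrank_eq_zero.1 h5
          have h7 : (⟨f, hfF⟩ : F) ∈ LinearMap.ker ((th f).domRestrict F) := by
            rw [LinearMap.mem_ker, LinearMap.domRestrict_apply, th_apply, mul_comm, sub_self]
          rw [h6, Submodule.mem_bot] at h7
          exact hf (congrArg Subtype.val h7)
        omega
      omega
    obtain ⟨W, hW, h1⟩ := ih _ hfd hlt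
    refine ⟨W * f, mul_ne_zero hW hf, fun ρ hρ g hg hv => ?_⟩
    rw [Polynomial.eval_mul, mul_ne_zero_iff] at hρ
    have h2 : th f g = 0 := by
      refine h1 ρ hρ.1 _ (Submodule.mem_map_of_mem hg) fun l hl => ?_
      rw [th_apply, Polynomial.eval_sub, Polynomial.eval_mul, Polynomial.eval_mul, dil_eval,
        ← mul_assoc, ← pow_succ', hv (l + 1) (by omega), hv l (by omega), zero_mul, zero_mul,
        sub_zero]
    rw [th_apply, sub_eq_zero] at h2
    obtain ⟨c, hc⟩ := dil_kernel f g hf h2
    have h3 := hv 0 (Nat.succ_pos d)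
    rw [pow_zero, one_mul, hc, Polynomial.eval_smul, smul_eq_mul] at h3
    rcases mul_eq_zero.1 h3 with h4 | h4
    · rw [hc, h4, zero_smul]
    · exact absurd h4 hρ.2

/-- The form used: a family of vectors of a space of dimension at most `d`. -/
theorem qw_family [CharZero K] {V : Type*} [AddCommGroup V] [Module K V] [FiniteDimensional K V]
    {β : Type*} [Fintype β] (E : β → ℕ) (hE : Function.Injective E) (w : β → V) (d : ℕ)
    (hd : Module.finrank K V ≤ d) :
    ∃ W : K[X], W ≠ 0 ∧ ∀ ρ : K, W.eval ρ ≠ 0 → ∀ φ : Module.Dual K V,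
      (∀ l < d, φ (∑ b, (2 ^ l * ρ) ^ E b • w b) = 0) → ∀ b, φ (w b) = 0 := by
  let T : Module.Dual K V →ₗ[K] K[X] :=
    { toFun := fun φ => ∑ b, Polynomial.monomial (E b) (φ (w b))
      map_add' := fun φ ψ => by
        rw [← Finset.sum_add_distrib]
        exact Finset.sum_congr rfl fun b _ => by rw [LinearMap.add_apply, map_add]
      map_smul' := fun c φ => by
        rw [RingHom.id_apply, Finset.smul_sum]
        exact Finset.sum_congr rfl fun b _ => by rw [LinearMap.smul_apply, map_smul] }
  have hT : ∀ φ, T φ = ∑ b, Polynomial.monomial (E b) (φ (w b)) := fun φ => rfl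
  have h1 : Module.finrank K (LinearMap.range T) ≤ d := by
    refine (LinearMap.finrank_range_le T).trans ?_
    rw [Subspace.dual_finrank_eq]
    exact hd
  obtain ⟨W, hW, h2⟩ := qw d (LinearMap.range T) inferInstance h1
  refine ⟨W, hW, fun ρ hρ φ hφ b => ?_⟩
  have h3 := h2 ρ hρ (T φ) (LinearMap.mem_range_self T φ) fun l hl => by
    have h4 := hφ l hl
    rw [map_sum] at h4
    rw [hT, Polynomial.eval_finsetSum, ← h4]
    refine Finset.sum_congr rfl fun b _ => ?_
    rw [Polynomial.eval_monomial, map_smul, smul_eq_mul, mul_comm]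
  have h5 := congrArg (fun f : K[X] => f.coeff (E b)) h3
  simp only [hT, Polynomial.finsetSum_coeff, Polynomial.coeff_monomial, Polynomial.coeff_zero] at h5
  rw [Finset.sum_eq_single b] at h5
  · rwa [if_pos rfl] at h5
  · intro b' _ hb'
    rw [if_neg]
    intro h6
    exact hb' (hE h6)
  · intro h6
    exact absurd (Finset.mem_univ _) h6

end Pool.Agent.NCS
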