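import Mathlib
import Pool.Agent.NCR.Twist2

/-!
NCS: a criterion for the vanishing of a recognisable series.
-/

set_option autoImplicit false

namespace Pool.Agent.NCS

open Pool.Agent.NCP Pool.Agent.NCR Matrix

universe u

variable {K : Type u} [Field K] {n : ℕ}

/-- A space of row vectors which contains `u A0⁻¹`, is closed under `A_i A0⁻¹` and annihilates
`v`. -/
def Null {ι : Type} [Fintype ι] [DecidableEq ι] (A0 : Matrix ι ι K) (A : Fin n → Matrix ι ι K)
    (u v : ι → K) : Prop :=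
  ∃ T : Submodule K (ι → K), u ᵥ* A0⁻¹ ∈ T ∧ (∀ z ∈ T, ∀ i, z ᵥ* (A i * A0⁻¹) ∈ T) ∧
    ∀ z ∈ T, z ⬝ᵥ v = 0

theorem null_iff_fp {s : ℕ} (A0 : Matrix (Fin s) (Fin s) K) (A : Fin n → Matrix (Fin s) (Fin s) K)
    (u v : Fin s → K) (hA0 : IsUnit A0.det) :
    (∀ k, fp A0 A u v k = 0) ↔ Null A0 A u v := by
  have hc : (∀ k, fp A0 A u v k = 0) ↔ ∀ w : List (Fin n), u ⬝ᵥ NCP.vec A0 A v w = 0 := by
    constructor
    · intro h w
      have h1 := cf_fp A0 A u v w.length w
      rw [h, map_zero, Finsupp.zero_apply, if_pos rfl] at h1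
      exact h1.symm
    · intro h k
      apply cf_inj
      ext w
      rw [cf_fp, Finsupp.zero_apply]
      split_ifs with h1
      · exact h w
      · rfl
  rw [hc]
  constructor
  · intro h
    refine ⟨{
      carrier := {z | ∀ w : List (Fin n), (z ᵥ* A0) ⬝ᵥ NCP.vec A0 A v w = 0}
      add_mem' := ?_
      zero_mem' := ?_
      smul_mem' := ?_ }, ?_, ?_, ?_⟩
    · intro a b ha hb w
      rw [Matrix.add_vecMul, add_dotProduct, ha w, hb w, add_zero]
    · intro w
      rw [Matrix.zero_vecMul, zero_dotProduct]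
    · intro c a ha w
      rw [Matrix.smul_vecMul, smul_dotProduct, ha w, smul_zero]
    · intro w
      rw [Matrix.vecMul_vecMul, Matrix.nonsing_inv_mul _ hA0, Matrix.vecMul_one]
      exact h w
    · intro z hz i w
      have h1 := hz (i :: w)
      rw [NCP.vec, Matrix.neg_mulVec, dotProduct_neg, neg_eq_zero, ← Matrix.dotProduct_mulVec,
        Matrix.mulVec_mulVec, ← Matrix.mul_assoc, Matrix.mul_nonsing_inv _ hA0, Matrix.one_mul] at h1
      rw [Matrix.vecMul_vecMul, Matrix.mul_assoc, Matrix.nonsing_inv_mul _ hA0, Matrix.mul_one,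
        ← Matrix.dotProduct_mulVec]
      exact h1
    · intro z hz
      have h1 := hz []
      rw [NCP.vec, ← Matrix.dotProduct_mulVec, Matrix.mulVec_mulVec, Matrix.mul_nonsing_inv _ hA0,
        Matrix.one_mulVec] at h1
      exact h1
  · rintro ⟨T, h1, h2, h3⟩ w
    have key : ∀ w : List (Fin n), ∀ z ∈ T, (z ᵥ* A0) ⬝ᵥ NCP.vec A0 A v w = 0 := by
      intro w
      induction w with
      | nil =>
        intro z hz
        rw [NCP.vec, ← Matrix.dotProduct_mulVec, Matrix.mulVec_mulVec, Matrix.mul_nonsing_inv _ hA0,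
          Matrix.one_mulVec]
        exact h3 z hz
      | cons i w ih =>
        intro z hz
        have h4 := ih _ (h2 z hz i)
        rw [Matrix.vecMul_vecMul, Matrix.mul_assoc, Matrix.nonsing_inv_mul _ hA0, Matrix.mul_one,
          ← Matrix.dotProduct_mulVec] at h4
        rw [NCP.vec, Matrix.neg_mulVec, dotProduct_neg, neg_eq_zero, ← Matrix.dotProduct_mulVec,
          Matrix.mulVec_mulVec, ← Matrix.mul_assoc, Matrix.mul_nonsing_inv _ hA0, Matrix.one_mul]
        exact h4
    have h5 := key w _ h1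
    rwa [Matrix.vecMul_vecMul, Matrix.nonsing_inv_mul _ hA0, Matrix.vecMul_one] at h5

theorem null_equiv {ι κ : Type} [Fintype ι] [DecidableEq ι] [Fintype κ] [DecidableEq κ]
    (A0 : Matrix ι ι K) (A : Fin n → Matrix ι ι K) (u v : ι → K) (e : ι ≃ κ)
    (h : Null (A0.submatrix e.symm e.symm) (fun i => (A i).submatrix e.symm e.symm)
      (u ∘ e.symm) (v ∘ e.symm)) : Null A0 A u v := by
  obtain ⟨T, h1, h2, h3⟩ := h
  refine ⟨T.comap (LinearMap.funLeft K K e.symm), ?_, ?_, ?_⟩
  · rw [Submodule.mem_comap]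
    have h4 : LinearMap.funLeft K K e.symm (u ᵥ* A0⁻¹) =
        (u ∘ e.symm) ᵥ* (A0.submatrix e.symm e.symm)⁻¹ := by
      rw [Matrix.inv_submatrix_equiv, Matrix.submatrix_vecMul_equiv]
      funext x
      simp [LinearMap.funLeft, Function.comp_def]
    rw [h4]
    exact h1
  · intro z hz i
    rw [Submodule.mem_comap] at hz ⊢
    have h4 := h2 _ hz i
    rw [Matrix.inv_submatrix_equiv, Matrix.submatrix_mul_equiv, Matrix.submatrix_vecMul_equiv] at h4
    have h5 : LinearMap.funLeft K K e.symm (z ᵥ* (A i * A0⁻¹)) =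
        ((LinearMap.funLeft K K e.symm z ∘ e.symm.symm) ᵥ* (A i * A0⁻¹)) ∘ e.symm := by
      have h6 : LinearMap.funLeft K K e.symm z ∘ e.symm.symm = z := by
        funext x
        simp [LinearMap.funLeft]
      rw [h6]
      rfl
    rw [h5]
    exact h4
  · intro z hz
    rw [Submodule.mem_comap] at hz
    have h4 := h3 _ hz
    rw [← h4]
    simp only [dotProduct, LinearMap.funLeft_apply, Function.comp_apply]
    exact (Equiv.sum_comp e.symm fun x => z x * v x).symm

theorem null_equiv' {ι κ : Type} [Fintype ι] [DecidableEq ι] [Fintype κ] [DecidableEq κ]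
    (A0 : Matrix ι ι K) (A : Fin n → Matrix ι ι K) (u v : ι → K) (e : ι ≃ κ)
    (h : Null A0 A u v) : Null (A0.submatrix e.symm e.symm)
      (fun i => (A i).submatrix e.symm e.symm) (u ∘ e.symm) (v ∘ e.symm) := by
  refine null_equiv _ _ _ _ e.symm ?_
  have h1 : (A0.submatrix e.symm e.symm).submatrix e.symm.symm e.symm.symm = A0 := by
    ext a b
    simp
  have h2 : (fun i => ((A i).submatrix e.symm e.symm).submatrix e.symm.symm e.symm.symm) = A := by
    funext i
    ext a b
    simp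
  have h3 : (u ∘ e.symm) ∘ e.symm.symm = u := by
    funext a
    simp
  have h4 : (v ∘ e.symm) ∘ e.symm.symm = v := by
    funext a
    simp
  rw [h1, h2, h3, h4]
  exact h

/-- **The explicit tuple detects series of small rank.** -/
theorem null_of_tup [CharZero K] {ι : Type} [Fintype ι] [DecidableEq ι] (A0 : Matrix ι ι K)
    (A : Fin n → Matrix ι ι K) (u v : ι → K) (hA0 : IsUnit A0) (M t : ℕ)
    (hc : Fintype.card ι ≤ t) (hM : n * t ^ 4 ≤ M)
    (h : Rep A0 A u v (tup K M t) 0) : Null A0 A u v := by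
  let e : ι ≃ Fin (Fintype.card ι) := Fintype.equivFin ι
  have hdet : IsUnit (A0.submatrix e.symm e.symm).det := by
    rw [Matrix.det_submatrix_equiv_self]
    exact (Matrix.isUnit_iff_isUnit_det _).1 hA0
  obtain ⟨h1, h2⟩ := rep_fin _ _ _ _ _ _ h _ e
  have hfp := fp_zero_of_tup _ _ hdet _ _ t M hc hM h1 h2
  exact null_equiv A0 A u v e ((null_iff_fp _ _ _ _ hdet).1 hfp)

theorem rep_zero_of_null [CharZero K] {ι : Type} [Fintype ι] [DecidableEq ι] (A0 : Matrix ι ι K)
    (A : Fin n → Matrix ι ι K) (u v : ι → K) (hA0 : IsUnit A0) (hn : Null A0 A u v) {N : ℕ}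
    (Y : Fin n → Matrix (Fin N) (Fin N) K) (x : Matrix (Fin N) (Fin N) K)
    (h : Rep A0 A u v Y x) : x = 0 := by
  let e : ι ≃ Fin (Fintype.card ι) := Fintype.equivFin ι
  have hdet : IsUnit (A0.submatrix e.symm e.symm).det := by
    rw [Matrix.det_submatrix_equiv_self]
    exact (Matrix.isUnit_iff_isUnit_det _).1 hA0
  have hfp := (null_iff_fp _ _ _ _ hdet).2 (null_equiv' A0 A u v e hn)
  obtain ⟨h1, h2⟩ := rep_fin _ _ _ _ _ _ h _ e
  rw [← h2]
  exact val_zero _ _ hdet _ _ hfp N Y h1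

end Pool.Agent.NCS
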