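import Mathlib
import Pool.Agent.NCS.Crit

/-!
NCS: perturbations of small rank of a matrix point; the Woodbury identity.
-/

set_option autoImplicit false

namespace Pool.Agent.NCS

open Pool.Agent.NCP Pool.Agent.NCR Matrix

universe u

variable {K : Type u} [Field K] {n : ℕ}

/-- The Woodbury identity. -/
theorem wood {I J S : Type*} [Fintype I] [DecidableEq I] [Fintype J] [DecidableEq J] [Ring S]
    (L0 G0 L G : Matrix I I S) (U : Matrix I J S) (V : Matrix J I S) (W : Matrix J J S)
    (h : L = L0 + U * W * V) (h1 : L0 * G0 = 1) (h2 : G0 * L0 = 1) (h3 : L * G = 1)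
    (h4 : G * L = 1) :
    (1 + V * G0 * U * W) * (1 - V * G * U * W) = 1 ∧
      (1 - V * G * U * W) * (1 + V * G0 * U * W) = 1 ∧
      G0 - G0 * U * W * (1 - V * G * U * W) * (V * G0) = G := by
  set E := U * W * V with hE
  have r1 : G0 * E * G = G0 - G := by
    have h5 : E = L - L0 := by rw [h]; abel
    rw [h5, Matrix.mul_sub, Matrix.sub_mul, h2, Matrix.one_mul, Matrix.mul_assoc, h3,
      Matrix.mul_one]
  have r2 : G * E * G0 = G0 - G := by
    have h5 : E = L - L0 := by rw [h]; abel
    rw [h5, Matrix.mul_sub, Matrix.sub_mul, h4, Matrix.one_mul, Matrix.mul_assoc, h1,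
      Matrix.mul_one]
  refine ⟨?_, ?_, ?_⟩
  · have e1 : V * G0 * U * W * (V * G * U * W) = V * (G0 * E * G) * U * W := by
      rw [hE]
      simp only [Matrix.mul_assoc]
    rw [Matrix.mul_sub, Matrix.mul_one, Matrix.add_mul, Matrix.one_mul, e1, r1, Matrix.mul_sub,
      Matrix.sub_mul, Matrix.sub_mul]
    abel
  · have e1 : V * G * U * W * (V * G0 * U * W) = V * (G * E * G0) * U * W := by
      rw [hE]
      simp only [Matrix.mul_assoc]
    rw [Matrix.mul_add, Matrix.mul_one, Matrix.sub_mul, Matrix.one_mul, e1, r2, Matrix.mul_sub,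
      Matrix.sub_mul, Matrix.sub_mul]
    abel
  · have e1 : G0 * U * W * (1 - V * G * U * W) * (V * G0) =
        G0 * E * G0 - G0 * (E * G * E) * G0 := by
      rw [hE, Matrix.mul_sub, Matrix.mul_one, Matrix.sub_mul]
      simp only [Matrix.mul_assoc]
    have e2 : G0 * (E * G * E) * G0 = (G0 * E * G) * E * G0 := by
      simp only [Matrix.mul_assoc]
    rw [e1, e2, r1, Matrix.sub_mul, Matrix.sub_mul, r2]
    abel

/-- The point `α ⊗ 1 + ∑ p_l q_l'ᵀ ⊗ T_(i,l,l')`, as `k × k` matrices over `S`. -/
noncomputable def sub2 {k P : ℕ} {S : Type*} [Ring S] [Algebra K S]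
    (α : Fin n → Matrix (Fin k) (Fin k) K) (p q : Fin P → Fin k → K)
    (T : Fin (n * (P * P)) → S) (i : Fin n) : Matrix (Fin k) (Fin k) S :=
  Matrix.of fun a b => algebraMap K S (α i a b) + ∑ l, ∑ l', (p l a * q l' b) • T (enc i l l')

variable {k P : ℕ} {ι : Type} [Fintype ι] [DecidableEq ι]

/-- The matrix `1 ⊗ p`. -/
def UK (ι : Type) [DecidableEq ι] (p : Fin P → Fin k → K) : Matrix (ι × Fin k) (ι × Fin P) K :=
  Matrix.of fun x y => if x.1 = y.1 then p y.2 x.2 else 0

/-- The matrix `1 ⊗ qᵀ`. -/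
def VK (ι : Type) [DecidableEq ι] (q : Fin P → Fin k → K) : Matrix (ι × Fin P) (ι × Fin k) K :=
  Matrix.of fun x y => if x.1 = y.1 then q x.2 y.2 else 0

omit [Fintype ι] [DecidableEq ι] in
theorem coe_sum (A : Fin n → Matrix ι ι K) {S : Type*} [Ring S] [Algebra K S]
    (T : Fin (n * (P * P)) → S) (a b : ι) (c d : Fin P) :
    ∑ v, coe (k := P) A v (a, c) (b, d) • T v = ∑ i, A i a b • T (enc i c d) := by
  rw [← Equiv.sum_comp (finProdFinEquiv : Fin n × Fin (P * P) ≃ Fin (n * (P * P))),
    Fintype.sum_prod_type]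
  refine Finset.sum_congr rfl fun i _ => ?_
  rw [Finset.sum_eq_single (finProdFinEquiv (c, d))]
  · simp [coe, enc]
  · intro w _ hw
    have h2 : coe (k := P) A (finProdFinEquiv (i, w)) (a, c) (b, d) = 0 := by
      rw [coe, Matrix.of_apply, Equiv.symm_apply_apply, if_neg]
      intro h3
      have h4 := finProdFinEquiv.injective h3
      exact hw (Prod.mk.inj h4).2.symm
    rw [h2, zero_smul]
  · intro h
    exact absurd (Finset.mem_univ _) h

/-- The linear part of the small pencil. -/
noncomputable def WW {S : Type*} [Ring S] [Algebra K S] (A : Fin n → Matrix ι ι K)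
    (T : Fin (n * (P * P)) → S) : Matrix (ι × Fin P) (ι × Fin P) S :=
  Matrix.of fun x y => ∑ v, coe (k := P) A v x y • T v

theorem comp_pen2 (A0 : Matrix ι ι K) (A : Fin n → Matrix ι ι K)
    (α : Fin n → Matrix (Fin k) (Fin k) K) (p q : Fin P → Fin k → K) {S : Type*} [Ring S]
    [Algebra K S] (T : Fin (n * (P * P)) → S) :
    Matrix.comp ι ι (Fin k) (Fin k) S (penG A0 A (sub2 α p q T)) =
      (con A0 A α).map (algebraMap K S) +
        (UK ι p).map (algebraMap K S) * WW A T * (VK ι q).map (algebraMap K S) := by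
  ext ⟨a, c⟩ ⟨b, d⟩
  have h5 : con A0 A α (a, c) (b, d) =
      (if c = d then A0 a b else 0) + ∑ i, A i a b * α i c d := by
    rw [con, Matrix.comp_apply, penG, Matrix.of_apply, Matrix.add_apply, Matrix.sum_apply,
      Matrix.algebraMap_matrix_apply]
    rfl
  have h6 : penG A0 A (sub2 α p q T) a b c d = (if c = d then algebraMap K S (A0 a b) else 0) +
      ∑ i, A i a b • (algebraMap K S (α i c d) +
        ∑ l, ∑ l', (p l c * q l' d) • T (enc i l l')) := by
    rw [penG, Matrix.of_apply, Matrix.add_apply, Matrix.sum_apply, Matrix.algebraMap_matrix_apply]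
    rfl
  have h7 : ((UK ι p).map (algebraMap K S) * WW A T * (VK ι q).map (algebraMap K S)) (a, c) (b, d) =
      ∑ l, ∑ l', (p l c * q l' d) • ∑ i, A i a b • T (enc i l l') := by
    rw [Matrix.mul_apply, Fintype.sum_prod_type, Finset.sum_eq_single b]
    · rw [Finset.sum_comm]
      refine Finset.sum_congr rfl fun l' _ => ?_
      rw [Matrix.mul_apply, Fintype.sum_prod_type, Finset.sum_eq_single a, Finset.sum_mul]
      · refine Finset.sum_congr rfl fun l _ => ?_
        rw [Matrix.map_apply, Matrix.map_apply, UK, VK, Matrix.of_apply, Matrix.of_apply, WW,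
          Matrix.of_apply, coe_sum, if_pos rfl, if_pos rfl, ← Algebra.smul_def,
          ← Algebra.commutes, ← Algebra.smul_def, smul_smul, mul_comm (q l' d)]
      · intro x _ hx
        refine Finset.sum_eq_zero fun l _ => ?_
        rw [Matrix.map_apply, UK, Matrix.of_apply, if_neg (fun h => hx h.symm), map_zero, zero_mul]
      · intro h
        exact absurd (Finset.mem_univ _) h
    · intro x _ hx
      refine Finset.sum_eq_zero fun l _ => ?_
      rw [Matrix.map_apply, VK, Matrix.of_apply, if_neg hx, map_zero, mul_zero]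
    · intro h
      exact absurd (Finset.mem_univ _) h
  rw [Matrix.comp_apply, h6, Matrix.add_apply, Matrix.map_apply, h5, h7, map_add, map_sum]
  simp only [smul_add, Finset.sum_add_distrib, map_mul, Finset.smul_sum, smul_smul]
  have h8 : ∑ i, ∑ l, ∑ l', (A i a b * (p l c * q l' d)) • T (enc i l l') =
      ∑ l, ∑ l', ∑ i, (p l c * q l' d * A i a b) • T (enc i l l') := by
    rw [Finset.sum_comm]
    refine Finset.sum_congr rfl fun l _ => ?_
    rw [Finset.sum_comm]
    refine Finset.sum_congr rfl fun l' _ => Finset.sum_congr rfl fun i _ => ?_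
    rw [mul_comm]
  rw [h8]
  simp only [Algebra.smul_def, map_mul]
  by_cases hcd : c = d
  · rw [if_pos hcd, if_pos hcd]
    abel
  · rw [if_neg hcd, if_neg hcd, map_zero]
    abel

end Pool.Agent.NCS
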