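import Mathlib
import Pool.Agent.NCS.Wood

/-!
NCS: the small pencil of a perturbation of small rank.
-/

set_option autoImplicit false

namespace Pool.Agent.NCS

open Pool.Agent.NCP Pool.Agent.NCR Matrix

universe u

variable {K : Type u} [Field K] {n k P : ℕ} {ι : Type} [Fintype ι] [DecidableEq ι]

/-- The row vector `u ⊗ e_c`. -/
def r0 (u : ι → K) (c : Fin k) : Matrix Unit (ι × Fin k) K :=
  Matrix.of fun _ x => if x.2 = c then u x.1 else 0

/-- The column vector `v ⊗ e_d`. -/
def c0 (v : ι → K) (d : Fin k) : Matrix (ι × Fin k) Unit K :=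
  Matrix.of fun x _ => if x.2 = d then v x.1 else 0

/-- Coefficient matrices of the small pencil. -/
noncomputable def smA (A : Fin n → Matrix ι ι K) (G : Matrix (ι × Fin k) (ι × Fin k) K) (u : ι → K)
    (c : Fin k) (p q : Fin P → Fin k → K) (v : Fin (n * (P * P))) :
    Matrix ((ι × Fin P) ⊕ Unit) ((ι × Fin P) ⊕ Unit) K :=
  Matrix.fromBlocks (VK ι q * G * UK ι p * coe (k := P) A v) 0
    (r0 u c * G * UK ι p * coe (k := P) A v) 0

/-- The row vector of the small pencil. -/
def smU (K : Type u) [Field K] (ι : Type) (P : ℕ) : (ι × Fin P) ⊕ Unit → K :=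
  Sum.elim 0 (fun _ => 1)

/-- The column vector of the small pencil. -/
noncomputable def smV (G : Matrix (ι × Fin k) (ι × Fin k) K) (u v : ι → K) (c d : Fin k)
    (q : Fin P → Fin k → K) : (ι × Fin P) ⊕ Unit → K :=
  Sum.elim (fun x => (VK ι q * G * c0 v d) x ()) (fun _ => (r0 u c * G * c0 v d) () ())

theorem mul_WW {I : Type} {S : Type*} [Ring S] [Algebra K S] (A : Fin n → Matrix ι ι K)
    (T : Fin (n * (P * P)) → S) (Q : Matrix I (ι × Fin P) K) (x : I) (y : ι × Fin P) :
    (Q.map (algebraMap K S) * WW A T) x y = ∑ v, (Q * coe (k := P) A v) x y • T v := by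
  rw [Matrix.mul_apply]
  simp only [Matrix.map_apply, WW, Matrix.of_apply, Finset.mul_sum, Matrix.mul_apply,
    Finset.sum_smul, ← Algebra.smul_def, smul_smul]
  rw [Finset.sum_comm]

theorem penG_small (A : Fin n → Matrix ι ι K) (G : Matrix (ι × Fin k) (ι × Fin k) K) (u : ι → K)
    (c : Fin k) (p q : Fin P → Fin k → K) {S : Type*} [Ring S] [Algebra K S]
    (T : Fin (n * (P * P)) → S) :
    penG (1 : Matrix ((ι × Fin P) ⊕ Unit) ((ι × Fin P) ⊕ Unit) K) (smA A G u c p q) T =
      Matrix.fromBlocks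
        (1 + (VK ι q * G * UK ι p).map (algebraMap K S) * WW A T) 0
        ((r0 u c * G * UK ι p).map (algebraMap K S) * WW A T) 1 := by
  ext1 x y
  rcases x with x | x <;> rcases y with y | y
  · rw [penG, Matrix.of_apply, Matrix.fromBlocks_apply₁₁, Matrix.add_apply, mul_WW]
    congr 1
    rw [Matrix.one_apply, Matrix.one_apply]
    by_cases h : x = y
    · subst h
      rw [if_pos rfl, if_pos rfl, map_one]
    · rw [if_neg (fun h' => h (Sum.inl.inj h')), if_neg h, map_zero]
  · rw [penG, Matrix.of_apply, Matrix.fromBlocks_apply₁₂, Matrix.one_apply_ne (by simp), map_zero,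
      zero_add, Matrix.zero_apply]
    refine Finset.sum_eq_zero fun v _ => ?_
    rw [smA, Matrix.fromBlocks_apply₁₂, Matrix.zero_apply, zero_smul]
  · rw [penG, Matrix.of_apply, Matrix.fromBlocks_apply₂₁, Matrix.one_apply_ne (by simp), map_zero,
      zero_add, mul_WW]
    rfl
  · rw [penG, Matrix.of_apply, Matrix.fromBlocks_apply₂₂]
    have h1 : (1 : Matrix ((ι × Fin P) ⊕ Unit) ((ι × Fin P) ⊕ Unit) K) (Sum.inr x) (Sum.inr y) = 1 := by
      rw [Matrix.one_apply, if_pos rfl]
    rw [h1, map_one, Matrix.one_apply, if_pos rfl]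
    rw [Finset.sum_eq_zero, add_zero]
    intro v _
    rw [smA, Matrix.fromBlocks_apply₂₂, Matrix.zero_apply, zero_smul]

theorem entry_val {S : Type*} [Ring S] [Algebra K S] (u v : ι → K)
    (B : Matrix ι ι (Matrix (Fin k) (Fin k) S)) (x : Matrix (Fin k) (Fin k) S)
    (h3 : rowM (Matrix (Fin k) (Fin k) S) u * B * colM (Matrix (Fin k) (Fin k) S) v = oneM x)
    (c d : Fin k) : (r0 u c).map (algebraMap K S) * Matrix.comp ι ι (Fin k) (Fin k) S B *
      (c0 v d).map (algebraMap K S) = oneM (x c d) := by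
  have h4 := congrFun (congrFun (congrFun (congrFun h3 ()) ()) c) d
  ext i j
  simp only [oneM, Matrix.of_apply] at h4 ⊢
  rw [← h4]
  simp only [Matrix.mul_apply, rowM, colM, r0, c0, Matrix.of_apply, Matrix.map_apply,
    Fintype.sum_prod_type, Matrix.comp_apply, Matrix.sum_apply, Matrix.algebraMap_matrix_apply]
  have e1 : ∀ (b : ι) (y : Fin k), ∑ a, ∑ x, algebraMap K S (if x = c then u a else 0) *
      B a b x y = ∑ a, algebraMap K S (u a) * B a b c y := by
    intro b y
    refine Finset.sum_congr rfl fun a _ => ?_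
    rw [Finset.sum_eq_single c]
    · rw [if_pos rfl]
    · intro x _ hx
      rw [if_neg hx, map_zero, zero_mul]
    · intro hx
      exact absurd (Finset.mem_univ _) hx
  have e2 : ∀ (b : ι) (y : Fin k), ∑ a, ∑ x, (if c = x then algebraMap K S (u a) else 0) *
      B a b x y = ∑ a, algebraMap K S (u a) * B a b c y := by
    intro b y
    refine Finset.sum_congr rfl fun a _ => ?_
    rw [Finset.sum_eq_single c]
    · rw [if_pos rfl]
    · intro x _ hx
      rw [if_neg (fun h => hx h.symm), zero_mul]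
    · intro hx
      exact absurd (Finset.mem_univ _) hx
  refine Finset.sum_congr rfl fun b _ => ?_
  rw [Finset.sum_eq_single d, Finset.sum_eq_single d]
  · rw [if_pos rfl, if_pos rfl, e1, e2]
  · intro y _ hy
    rw [if_neg hy, mul_zero]
  · intro hy
    exact absurd (Finset.mem_univ _) hy
  · intro y _ hy
    rw [if_neg hy, map_zero, mul_zero]
  · intro hy
    exact absurd (Finset.mem_univ _) hy

/-- The entries of a represented matrix are represented by the small pencil. -/
theorem rep_small (A0 : Matrix ι ι K) (A : Fin n → Matrix ι ι K) (u v : ι → K)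
    (α : Fin n → Matrix (Fin k) (Fin k) K) (p q : Fin P → Fin k → K)
    (G : Matrix (ι × Fin k) (ι × Fin k) K) (h1 : con A0 A α * G = 1) (h2 : G * con A0 A α = 1)
    {S : Type*} [Ring S] [Algebra K S] (T : Fin (n * (P * P)) → S) (x : Matrix (Fin k) (Fin k) S)
    (h : Rep A0 A u v (sub2 α p q T) x) (c d : Fin k) :
    Rep 1 (smA A G u c p q) (smU K ι P) (smV G u v c d q) T (x c d) := by
  obtain ⟨B, h3, h4, h5⟩ := h
  have h6 := entry_val u v B x h5 c d
  have e1 : (con A0 A α).map (algebraMap K S) * G.map (algebraMap K S) = 1 := by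
    rw [← Matrix.map_mul, h1, Matrix.map_one _ (map_zero _) (map_one _)]
  have e2 : G.map (algebraMap K S) * (con A0 A α).map (algebraMap K S) = 1 := by
    rw [← Matrix.map_mul, h2, Matrix.map_one _ (map_zero _) (map_one _)]
  have e3 : Matrix.comp ι ι (Fin k) (Fin k) S (penG A0 A (sub2 α p q T)) *
      Matrix.comp ι ι (Fin k) (Fin k) S B = 1 := by
    rw [← comp_mul, h3, Matrix.comp_one]
  have e4 : Matrix.comp ι ι (Fin k) (Fin k) S B *
      Matrix.comp ι ι (Fin k) (Fin k) S (penG A0 A (sub2 α p q T)) = 1 := by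
    rw [← comp_mul, h4, Matrix.comp_one]
  obtain ⟨w1, w2, w3⟩ := wood _ _ _ _ _ _ _ (comp_pen2 A0 A α p q T) e1 e2 e3 e4
  have m1 : (VK ι q * G * UK ι p).map (algebraMap K S) =
      (VK ι q).map (algebraMap K S) * G.map (algebraMap K S) * (UK ι p).map (algebraMap K S) := by
    rw [Matrix.map_mul, Matrix.map_mul]
  have m2 : (r0 u c * G * UK ι p).map (algebraMap K S) =
      (r0 u c).map (algebraMap K S) * G.map (algebraMap K S) * (UK ι p).map (algebraMap K S) := by
    rw [Matrix.map_mul, Matrix.map_mul]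
  have m3 : (VK ι q * G * c0 v d).map (algebraMap K S) =
      (VK ι q).map (algebraMap K S) * G.map (algebraMap K S) * (c0 v d).map (algebraMap K S) := by
    rw [Matrix.map_mul, Matrix.map_mul]
  have m4 : (r0 u c * G * c0 v d).map (algebraMap K S) =
      (r0 u c).map (algebraMap K S) * G.map (algebraMap K S) * (c0 v d).map (algebraMap K S) := by
    rw [Matrix.map_mul, Matrix.map_mul]
  have hp := penG_small A G u c p q T
  rw [m1, m2] at hp
  have hv : ∀ (X : Matrix (ι × Fin P) (ι × Fin P) S) (R : Matrix Unit (ι × Fin P) S),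
      rowM S (smU K ι P) * Matrix.fromBlocks X (0 : Matrix (ι × Fin P) Unit S) R
        (1 : Matrix Unit Unit S) * colM S (smV G u v c d q) =
        (r0 u c * G * c0 v d).map (algebraMap K S) + R *
          (VK ι q * G * c0 v d).map (algebraMap K S) := by
    intro X R
    have g0 : ∀ (i : Unit) (w : (ι × Fin P) ⊕ Unit → S),
        ∑ z : ι × Fin P, rowM S (smU K ι P) i (Sum.inl z) * w (Sum.inl z) = 0 := by
      intro i w
      refine Finset.sum_eq_zero fun z _ => ?_
      rw [rowM, Matrix.of_apply, smU, Sum.elim_inl, Pi.zero_apply, map_zero, zero_mul]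
    have g1 : ∀ (i : Unit) (y : (ι × Fin P) ⊕ Unit), (rowM S (smU K ι P) * Matrix.fromBlocks X
        (0 : Matrix (ι × Fin P) Unit S) R (1 : Matrix Unit Unit S)) i y =
          Matrix.fromBlocks X (0 : Matrix (ι × Fin P) Unit S) R (1 : Matrix Unit Unit S)
            (Sum.inr ()) y := by
      intro i y
      rw [Matrix.mul_apply, Fintype.sum_sum_type, g0 i fun z => Matrix.fromBlocks X
        (0 : Matrix (ι × Fin P) Unit S) R (1 : Matrix Unit Unit S) z y, zero_add,
        Finset.univ_unique, Finset.sum_singleton, rowM, Matrix.of_apply, smU, Sum.elim_inr, map_one,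
        one_mul]
    ext i j
    rw [Matrix.mul_apply, Fintype.sum_sum_type, Matrix.add_apply, Matrix.mul_apply, add_comm]
    simp only [g1, Finset.univ_unique, Finset.sum_singleton, Matrix.fromBlocks_apply₂₁,
      Matrix.fromBlocks_apply₂₂, Matrix.one_apply_eq, one_mul]
    rfl
  generalize Matrix.comp ι ι (Fin k) (Fin k) S B = G' at *
  generalize (UK ι p).map (algebraMap K S) = U at *
  generalize (VK ι q).map (algebraMap K S) = V at *
  generalize G.map (algebraMap K S) = GS at *
  generalize WW A T = W at *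
  generalize (r0 u c).map (algebraMap K S) = RS at *
  generalize (c0 v d).map (algebraMap K S) = CS at *
  set X : Matrix (ι × Fin P) (ι × Fin P) S := 1 - V * G' * U * W with hX
  refine ⟨Matrix.fromBlocks X (0 : Matrix (ι × Fin P) Unit S) (-(RS * GS * U * W * X))
    (1 : Matrix Unit Unit S), ?_, ?_, ?_⟩
  · rw [hp, Matrix.fromBlocks_multiply, w1, ← Matrix.fromBlocks_one]
    congr 1
    · rw [Matrix.zero_mul, add_zero]
    · rw [Matrix.mul_zero, Matrix.zero_mul, add_zero]
    · rw [Matrix.one_mul, add_neg_cancel]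
    · rw [Matrix.mul_zero, Matrix.one_mul, zero_add]
  · rw [hp, Matrix.fromBlocks_multiply, w2, ← Matrix.fromBlocks_one]
    congr 1
    · rw [Matrix.zero_mul, add_zero]
    · rw [Matrix.mul_zero, Matrix.zero_mul, add_zero]
    · rw [Matrix.neg_mul, Matrix.mul_assoc _ X, w2, Matrix.mul_one, Matrix.one_mul,
        neg_add_cancel]
    · rw [Matrix.mul_zero, Matrix.one_mul, zero_add]
  · clear_value X
    rw [hv, m3, m4, ← h6, ← w3, Matrix.mul_sub, Matrix.sub_mul, Matrix.neg_mul, ← sub_eq_add_neg]
    congr 1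
    simp only [Matrix.mul_assoc]

end Pool.Agent.NCS
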