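import Mathlib
import Pool.Agent.NCS.Small

/-!
NCS: from the vanishing of the small series to the vanishing of the series at a matrix point.
-/

set_option autoImplicit false

namespace Pool.Agent.NCS

open Pool.Agent.NCP Pool.Agent.NCR Matrix

universe u

variable {K : Type u} [Field K] {n k P : ℕ} {ι : Type} [Fintype ι] [DecidableEq ι]

/-- The rows `(u ⊗ e_c) G (1 ⊗ e_b)`. -/
def rb (G : Matrix (ι × Fin k) (ι × Fin k) K) (u : ι → K) (c b : Fin k) : ι → K :=
  fun a' => ∑ a, u a * G (a, c) (a', b)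

/-- The blocks of `G`. -/
def gb (G : Matrix (ι × Fin k) (ι × Fin k) K) (y b : Fin k) : Matrix ι ι K :=
  Matrix.of fun a a' => G (a, y) (a', b)

/-- The columns `(1 ⊗ e_yᵀ) G (v ⊗ e_d)`. -/
def cb (G : Matrix (ι × Fin k) (ι × Fin k) K) (v : ι → K) (d y : Fin k) : ι → K :=
  fun a => ∑ a', G (a, y) (a', d) * v a'

omit [Fintype ι] [DecidableEq ι] in
theorem coe_enc (A : Fin n → Matrix ι ι K) (j : Fin n) (l m : Fin P) (x y : ι × Fin P) :
    coe (k := P) A (enc j l m) x y = if x.2 = l ∧ y.2 = m then A j x.1 y.1 else 0 := by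
  have h1 : (finProdFinEquiv.symm (enc j l m)).1 = j := by
    rw [enc, Equiv.symm_apply_apply]
  have h2 : enc j x.2 y.2 = enc j l m ↔ x.2 = l ∧ y.2 = m := by
    rw [enc, enc, finProdFinEquiv.injective.eq_iff, Prod.mk.injEq, finProdFinEquiv.injective.eq_iff,
      Prod.mk.injEq]
    exact ⟨fun h => h.2, fun h => ⟨rfl, h⟩⟩
  rw [coe, Matrix.of_apply, h1]
  by_cases h3 : x.2 = l ∧ y.2 = m
  · rw [if_pos (h2.2 h3), if_pos h3]
  · rw [if_neg (fun h => h3 (h2.1 h)), if_neg h3]

theorem enc_surj (v : Fin (n * (P * P))) : ∃ (j : Fin n) (l m : Fin P), enc j l m = v := by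
  refine ⟨(finProdFinEquiv.symm v).1, (finProdFinEquiv.symm (finProdFinEquiv.symm v).2).1,
    (finProdFinEquiv.symm (finProdFinEquiv.symm v).2).2, ?_⟩
  rw [enc, Prod.mk.eta, Equiv.apply_symm_apply, Prod.mk.eta, Equiv.apply_symm_apply]

/-- A row vector in one slot. -/
def pl (l : Fin P) (z : ι → K) : ι × Fin P → K := fun x => if x.2 = l then z x.1 else 0

omit [DecidableEq ι] in
theorem vecMul_coe (A : Fin n → Matrix ι ι K) (j : Fin n) (l m : Fin P) (w : ι × Fin P → K) :
    w ᵥ* coe (k := P) A (enc j l m) = pl m ((fun a => w (a, l)) ᵥ* A j) := by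
  funext y
  obtain ⟨b, y⟩ := y
  rw [Matrix.vecMul, dotProduct, Fintype.sum_prod_type, pl]
  simp only [coe_enc]
  by_cases h : y = m
  · subst h
    rw [if_pos rfl, Matrix.vecMul, dotProduct]
    refine Finset.sum_congr rfl fun a _ => ?_
    rw [Finset.sum_eq_single l]
    · simp
    · intro x _ hx
      rw [if_neg (fun h => hx h.1), mul_zero]
    · intro h
      exact absurd (Finset.mem_univ _) h
  · rw [if_neg h]
    refine Finset.sum_eq_zero fun a _ => Finset.sum_eq_zero fun x _ => ?_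
    rw [if_neg (fun h' => h h'.2), mul_zero]

omit [DecidableEq ι] in
theorem pl_vecMul {κ : Type} (l : Fin P) (z : ι → K) (B : Matrix (ι × Fin P) κ K) :
    pl l z ᵥ* B = z ᵥ* Matrix.of fun a y => B (a, l) y := by
  funext y
  rw [Matrix.vecMul, dotProduct, Fintype.sum_prod_type, Matrix.vecMul, dotProduct]
  refine Finset.sum_congr rfl fun a _ => ?_
  rw [Finset.sum_eq_single l]
  · rw [pl, if_pos rfl]
    rfl
  · intro x _ hx
    rw [pl, if_neg hx, zero_mul]
  · intro h
    exact absurd (Finset.mem_univ _) h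

theorem VK_mul {κ : Type} (q : Fin P → Fin k → K) (Q : Matrix (ι × Fin k) κ K) (a : ι) (l : Fin P)
    (z : κ) : (VK ι q * Q) (a, l) z = ∑ y, q l y * Q (a, y) z := by
  rw [Matrix.mul_apply, Fintype.sum_prod_type, Finset.sum_eq_single a]
  · refine Finset.sum_congr rfl fun y _ => ?_
    rw [VK, Matrix.of_apply, if_pos rfl]
  · intro x _ hx
    refine Finset.sum_eq_zero fun y _ => ?_
    rw [VK, Matrix.of_apply, if_neg (fun h => hx h.symm), zero_mul]
  · intro h
    exact absurd (Finset.mem_univ _) h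

theorem mul_UK {κ : Type} (p : Fin P → Fin k → K) (Q : Matrix κ (ι × Fin k) K) (a : ι) (l : Fin P)
    (z : κ) : (Q * UK ι p) z (a, l) = ∑ y, Q z (a, y) * p l y := by
  rw [Matrix.mul_apply, Fintype.sum_prod_type, Finset.sum_eq_single a]
  · refine Finset.sum_congr rfl fun y _ => ?_
    rw [UK, Matrix.of_apply, if_pos rfl]
  · intro x _ hx
    refine Finset.sum_eq_zero fun y _ => ?_
    rw [UK, Matrix.of_apply, if_neg hx, mul_zero]
  · intro h
    exact absurd (Finset.mem_univ _) h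

omit [DecidableEq ι] in
theorem r0_mul {κ : Type} (u : ι → K) (c : Fin k) (Q : Matrix (ι × Fin k) κ K) (z : κ) (i : Unit) :
    (r0 u c * Q) i z = ∑ a, u a * Q (a, c) z := by
  rw [Matrix.mul_apply, Fintype.sum_prod_type]
  refine Finset.sum_congr rfl fun a _ => ?_
  rw [Finset.sum_eq_single c]
  · rw [r0, Matrix.of_apply, if_pos rfl]
  · intro x _ hx
    rw [r0, Matrix.of_apply, if_neg hx, zero_mul]
  · intro h
    exact absurd (Finset.mem_univ _) h

omit [DecidableEq ι] in
theorem mul_c0 {κ : Type} (v : ι → K) (d : Fin k) (Q : Matrix κ (ι × Fin k) K) (z : κ) (i : Unit) :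
    (Q * c0 v d) z i = ∑ a, Q z (a, d) * v a := by
  rw [Matrix.mul_apply, Fintype.sum_prod_type]
  refine Finset.sum_congr rfl fun a _ => ?_
  rw [Finset.sum_eq_single d]
  · rw [c0, Matrix.of_apply, if_pos rfl]
  · intro x _ hx
    rw [c0, Matrix.of_apply, if_neg hx, mul_zero]
  · intro h
    exact absurd (Finset.mem_univ _) h

theorem gam_block (G : Matrix (ι × Fin k) (ι × Fin k) K) (p q : Fin P → Fin k → K)
    (l' l : Fin P) : (Matrix.of fun a a' => (VK ι q * G * UK ι p) (a, l') (a', l)) =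
      ∑ y, ∑ b, (q l' y * p l b) • gb G y b := by
  ext a a'
  rw [Matrix.of_apply, mul_UK, Matrix.sum_apply]
  simp only [VK_mul, Matrix.sum_apply, Matrix.smul_apply, gb, Matrix.of_apply, smul_eq_mul,
    Finset.sum_mul]
  rw [Finset.sum_comm]
  exact Finset.sum_congr rfl fun y _ => Finset.sum_congr rfl fun b _ => by ring

theorem rS_apply (G : Matrix (ι × Fin k) (ι × Fin k) K) (p : Fin P → Fin k → K) (u : ι → K)
    (c : Fin k) (l : Fin P) : (fun a' => (r0 u c * G * UK ι p) () (a', l)) =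
      ∑ b, p l b • rb G u c b := by
  funext a'
  rw [mul_UK, Finset.sum_apply]
  refine Finset.sum_congr rfl fun b _ => ?_
  rw [r0_mul, Pi.smul_apply, smul_eq_mul, mul_comm]
  rfl

theorem cS_apply (G : Matrix (ι × Fin k) (ι × Fin k) K) (q : Fin P → Fin k → K) (v : ι → K)
    (d : Fin k) (l : Fin P) : (fun a => (VK ι q * G * c0 v d) (a, l) ()) =
      ∑ y, q l y • cb G v d y := by
  funext a
  rw [Matrix.mul_assoc, VK_mul, Finset.sum_apply]
  refine Finset.sum_congr rfl fun b _ => ?_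
  rw [mul_c0, Pi.smul_apply, smul_eq_mul]
  rfl

theorem vecMul_smA (A : Fin n → Matrix ι ι K) (G : Matrix (ι × Fin k) (ι × Fin k) K) (u : ι → K)
    (c : Fin k) (p q : Fin P → Fin k → K) (j : Fin n) (l m : Fin P) (z : ι × Fin P → K)
    (e : Unit → K) : (Sum.elim z e) ᵥ* smA A G u c p q (enc j l m) =
      Sum.elim (pl m ((fun a => (z ᵥ* (VK ι q * G * UK ι p) + e ᵥ* (r0 u c * G * UK ι p)) (a, l)) ᵥ*
        A j)) 0 := by
  rw [smA, Matrix.vecMul_fromBlocks]
  have h1 : (Sum.elim z e) ∘ Sum.inl = z := rfl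
  have h2 : (Sum.elim z e) ∘ Sum.inr = e := rfl
  rw [h1, h2, Matrix.vecMul_zero, Matrix.vecMul_zero, add_zero, ← Matrix.vecMul_vecMul,
    ← Matrix.vecMul_vecMul e, ← Matrix.add_vecMul, vecMul_coe]

/-- **The transfer.** -/
theorem null_trans (A0 : Matrix ι ι K) (A : Fin n → Matrix ι ι K) (u v : ι → K)
    (α : Fin n → Matrix (Fin k) (Fin k) K) (p q : Fin P → Fin k → K)
    (G : Matrix (ι × Fin k) (ι × Fin k) K) (h1 : con A0 A α * G = 1)
    (c d : Fin k)
    (H1 : ∀ φ : Module.Dual K (ι → K), (∀ l, φ (∑ b, p l b • rb G u c b) = 0) →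
      ∀ b, φ (rb G u c b) = 0)
    (H2 : ∀ φ : Module.Dual K (Matrix ι ι K),
      (∀ l, φ (∑ y, ∑ b, (q l y * p l b) • gb G y b) = 0) → ∀ y b, φ (gb G y b) = 0)
    (H3 : ∀ φ : Module.Dual K (ι → K), (∀ l, φ (∑ y, q l y • cb G v d y) = 0) →
      ∀ y, φ (cb G v d y) = 0)
    (hN : Null 1 (smA A G u c p q) (smU K ι P) (smV G u v c d q)) :
    Null (con A0 A α) (coe (k := k) A) (fun x => if x.2 = c then u x.1 else 0)
      (fun x => if x.2 = d then v x.1 else 0) := by
  obtain ⟨T, t1, t2, t3⟩ := hN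
  rw [inv_one, Matrix.vecMul_one] at t1
  replace t2 : ∀ z ∈ T, ∀ i, z ᵥ* smA A G u c p q i ∈ T := by
    intro z hz i
    have h3 := t2 z hz i
    rwa [inv_one, Matrix.mul_one] at h3
  -- the space
  let R : Submodule K (ι → K) :=
    { carrier := {z | ∀ (i : Fin n) (m : Fin P),
        (Sum.elim (pl m (z ᵥ* A i)) 0 : (ι × Fin P) ⊕ Unit → K) ∈ T}
      add_mem' := by
        intro a b ha hb i m
        have h3 : (Sum.elim (pl m ((a + b) ᵥ* A i)) 0 : (ι × Fin P) ⊕ Unit → K) =
            Sum.elim (pl m (a ᵥ* A i)) 0 + Sum.elim (pl m (b ᵥ* A i)) 0 := by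
          funext x
          rcases x with x | x
          · simp only [Sum.elim_inl, Pi.add_apply, pl, Matrix.add_vecMul]
            split_ifs <;> simp
          · simp
        rw [h3]
        exact T.add_mem (ha i m) (hb i m)
      zero_mem' := by
        intro i m
        have h3 : (Sum.elim (pl m ((0 : ι → K) ᵥ* A i)) 0 : (ι × Fin P) ⊕ Unit → K) = 0 := by
          funext x
          rcases x with x | x
          · simp [pl]
          · simp
        rw [h3]
        exact T.zero_mem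
      smul_mem' := by
        intro r a ha i m
        have h3 : (Sum.elim (pl m ((r • a) ᵥ* A i)) 0 : (ι × Fin P) ⊕ Unit → K) =
            r • Sum.elim (pl m (a ᵥ* A i)) 0 := by
          funext x
          rcases x with x | x
          · simp only [Sum.elim_inl, Pi.smul_apply, pl, Matrix.smul_vecMul]
            split_ifs <;> simp
          · simp
        rw [h3]
        exact T.smul_mem r (ha i m) }
  have R1 : ∀ l, (∑ b, p l b • rb G u c b) ∈ R := by
    intro l i m
    have h3 := t2 _ t1 (enc i l m)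
    rw [smU, vecMul_smA] at h3
    have h4 : (fun a => ((0 : ι × Fin P → K) ᵥ* (VK ι q * G * UK ι p) +
        (fun _ : Unit => (1 : K)) ᵥ* (r0 u c * G * UK ι p)) (a, l)) = ∑ b, p l b • rb G u c b := by
      rw [← rS_apply]
      funext a
      rw [Matrix.zero_vecMul, zero_add, Matrix.vecMul, dotProduct]
      simp
    rwa [h4] at h3
  have R2 : ∀ z ∈ R, ∀ (i : Fin n) (l' l : Fin P),
      (z ᵥ* A i) ᵥ* (∑ y, ∑ b, (q l' y * p l b) • gb G y b) ∈ R := by
    intro z hz i l' l j m
    have h3 := t2 _ (hz i l') (enc j l m)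
    rw [vecMul_smA] at h3
    have h4 : (fun a => (pl l' (z ᵥ* A i) ᵥ* (VK ι q * G * UK ι p) +
        (0 : Unit → K) ᵥ* (r0 u c * G * UK ι p)) (a, l)) =
        (z ᵥ* A i) ᵥ* (∑ y, ∑ b, (q l' y * p l b) • gb G y b) := by
      rw [← gam_block]
      funext a
      rw [Matrix.zero_vecMul, add_zero, pl_vecMul]
      rfl
    rwa [h4] at h3
  have R3 : ∀ z ∈ R, ∀ (i : Fin n) (l : Fin P), (z ᵥ* A i) ⬝ᵥ (∑ y, q l y • cb G v d y) = 0 := by
    intro z hz i l
    have h3 := t3 _ (hz i l)
    rw [← cS_apply]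
    rw [dotProduct, Fintype.sum_sum_type, Fintype.sum_prod_type] at h3
    simp only [smV, Sum.elim_inl, Sum.elim_inr, Pi.zero_apply, zero_mul, Finset.sum_const_zero,
      add_zero] at h3
    rw [dotProduct, ← h3]
    refine Finset.sum_congr rfl fun a _ => ?_
    rw [Finset.sum_eq_single l]
    · rw [pl, if_pos rfl]
    · intro x _ hx
      rw [pl, if_neg hx, zero_mul]
    · intro h
      exact absurd (Finset.mem_univ _) h
  -- the generic directions
  have R1' : ∀ b, rb G u c b ∈ R := by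
    intro b
    rw [← Subspace.forall_mem_dualAnnihilator_apply_eq_zero_iff]
    intro φ hφ
    rw [Submodule.mem_dualAnnihilator] at hφ
    exact H1 φ (fun l => hφ _ (R1 l)) b
  have R2' : ∀ z ∈ R, ∀ (i : Fin n) (y b : Fin k), (z ᵥ* A i) ᵥ* gb G y b ∈ R := by
    intro z hz i y b
    rw [← Subspace.forall_mem_dualAnnihilator_apply_eq_zero_iff]
    intro φ hφ
    rw [Submodule.mem_dualAnnihilator] at hφ
    let ψ : Module.Dual K (Matrix ι ι K) :=
      { toFun := fun m => φ ((z ᵥ* A i) ᵥ* m)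
        map_add' := fun m m' => by rw [Matrix.vecMul_add, map_add]
        map_smul' := fun r m => by rw [Matrix.vecMul_smul, map_smul, RingHom.id_apply] }
    exact H2 ψ (fun l => hφ _ (R2 z hz i l l)) y b
  have R3' : ∀ z ∈ R, ∀ (i : Fin n) (y : Fin k), (z ᵥ* A i) ⬝ᵥ cb G v d y = 0 := by
    intro z hz i y
    let ψ : Module.Dual K (ι → K) :=
      { toFun := fun m => (z ᵥ* A i) ⬝ᵥ m
        map_add' := fun m m' => by rw [dotProduct_add]
        map_smul' := fun r m => by rw [dotProduct_smul, RingHom.id_apply] }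
    exact H3 ψ (fun l => R3 z hz i l) y
  have x0 : ∑ a, (∑ a', u a' * G (a', c) (a, d)) * v a = 0 := by
    have h3 := t3 _ t1
    rw [dotProduct, Fintype.sum_sum_type] at h3
    simp only [smU, smV, Sum.elim_inl, Sum.elim_inr, Pi.zero_apply, zero_mul,
      Finset.sum_const_zero, zero_add, one_mul, Finset.univ_unique, Finset.sum_singleton] at h3
    rw [mul_c0] at h3
    rw [← h3]
    refine Finset.sum_congr rfl fun a _ => ?_
    rw [r0_mul]
  have hG : (con A0 A α)⁻¹ = G := Matrix.inv_eq_right_inv h1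
  -- the final space
  have dv : ∀ z : ι × Fin k → K, z ⬝ᵥ (fun x : ι × Fin k => if x.2 = d then v x.1 else 0) =
      ∑ a, z (a, d) * v a := by
    intro z
    rw [dotProduct, Fintype.sum_prod_type]
    refine Finset.sum_congr rfl fun a _ => ?_
    rw [Finset.sum_eq_single d]
    · rw [if_pos rfl]
    · intro x _ hx
      rw [if_neg hx, mul_zero]
    · intro h
      exact absurd (Finset.mem_univ _) h
  refine ⟨{
    carrier := {z | (∀ b, (fun a => z (a, b)) ∈ R) ∧ ∑ a, z (a, d) * v a = 0}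
    add_mem' := ?_
    zero_mem' := ?_
    smul_mem' := ?_ }, ?_, ?_, ?_⟩
  · rintro a b ⟨ha, ha'⟩ ⟨hb, hb'⟩
    refine ⟨fun x => R.add_mem (ha x) (hb x), ?_⟩
    simp only [Pi.add_apply, add_mul, Finset.sum_add_distrib]
    rw [ha', hb', add_zero]
  · exact ⟨fun x => R.zero_mem, by simp⟩
  · rintro r a ⟨ha, ha'⟩
    refine ⟨fun x => R.smul_mem r (ha x), ?_⟩
    simp only [Pi.smul_apply, smul_eq_mul, mul_assoc]
    rw [← Finset.mul_sum, ha', mul_zero]
  · rw [hG]
    have h3 : (fun x : ι × Fin k => if x.2 = c then u x.1 else 0) ᵥ* G =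
        fun y => ∑ a, u a * G (a, c) y := by
      funext y
      have h4 := r0_mul u c G y ()
      rw [← h4]
      rfl
    rw [h3]
    exact ⟨fun b => R1' b, x0⟩
  · rintro z ⟨hz, -⟩ w
    obtain ⟨j, x, y, rfl⟩ := enc_surj w
    rw [hG, ← Matrix.vecMul_vecMul, vecMul_coe, pl_vecMul]
    refine ⟨fun b => R2' _ (hz x) j y b, ?_⟩
    have h3 := R3' _ (hz x) j y
    rw [← h3]
    generalize (fun a => z (a, x)) ᵥ* A j = w
    have h4 : ∀ a, (w ᵥ* Matrix.of fun a y_1 => G (a, y) y_1) (a, d) =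
        ∑ a', w a' * G (a', y) (a, d) := fun a => rfl
    simp only [h4, dotProduct, cb, Finset.mul_sum, Finset.sum_mul]
    rw [Finset.sum_comm]
    exact Finset.sum_congr rfl fun a _ => Finset.sum_congr rfl fun b _ => by ring
  · rintro z ⟨-, hz⟩
    rw [dv]
    exact hz

end Pool.Agent.NCS
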