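import Mathlib
import Pool.Agent.NCS.Trans
import Pool.Agent.NCS.QW

/-!
NCS: the explicit point over a matrix point; the size of the nilpotent matrices does not depend
on the size of the matrix point.
-/

set_option autoImplicit false

namespace Pool.Agent.NCS

open Pool.Agent.NCP Pool.Agent.NCR Matrix Polynomial

universe u

variable {K : Type u} [Field K] {n k P : ℕ} {ι : Type} [Fintype ι] [DecidableEq ι]

/-- The vectors `p_l`. -/
def pv (k P : ℕ) (ρ : K) : Fin P → Fin k → K := fun l b => (2 ^ (l : ℕ) * ρ) ^ (b : ℕ)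

/-- The vectors `q_l`. -/
def qv (k P : ℕ) (ρ : K) : Fin P → Fin k → K := fun l b => (2 ^ (l : ℕ) * ρ) ^ (k * (b : ℕ))

/-- Representations and homomorphisms. -/
theorem rep_map {R S : Type*} [Ring R] [Algebra K R] [Ring S] [Algebra K S] (f : R →ₐ[K] S)
    (A0 : Matrix ι ι K) (A : Fin n → Matrix ι ι K) (u v : ι → K) (Y : Fin n → R) (x : R)
    (h : Rep A0 A u v Y x) : Rep A0 A u v (fun i => f (Y i)) (f x) := by
  obtain ⟨B, h1, h2, h3⟩ := h
  refine ⟨B.map f, ?_, ?_, ?_⟩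
  · rw [← penG_map, ← Matrix.map_mul, h1, Matrix.map_one _ (map_zero f) (map_one f)]
  · rw [← penG_map, ← Matrix.map_mul, h2, Matrix.map_one _ (map_zero f) (map_one f)]
  · have h4 : (rowM R u).map f = rowM S u := by
      ext a b
      simp [rowM]
    have h5 : (colM R v).map f = colM S v := by
      ext a b
      simp [colM]
    rw [← h4, ← h5, ← Matrix.map_mul, ← Matrix.map_mul, h3]
    rfl

theorem comp_pen3 (A0 : Matrix ι ι K) (A : Fin n → Matrix ι ι K)
    (α : Fin n → Matrix (Fin k) (Fin k) K) (p q : Fin P → Fin k → K) {S : Type*} [Ring S]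
    [Algebra K S] (T : Fin (n * (P * P)) → S) :
    Matrix.comp ι ι (Fin k) (Fin k) S (penG A0 A (sub2 α p q T)) =
      penG (con A0 A α) (fun v => UK ι p * coe (k := P) A v * VK ι q) T := by
  rw [comp_pen2]
  ext x y
  rw [Matrix.add_apply, Matrix.map_apply, penG, Matrix.of_apply]
  congr 1
  rw [Matrix.mul_apply]
  simp only [mul_WW, Matrix.map_apply, Finset.sum_mul, Matrix.mul_apply (N := VK ι q),
    Finset.sum_smul]
  rw [Finset.sum_comm]
  refine Finset.sum_congr rfl fun v _ => Finset.sum_congr rfl fun z _ => ?_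
  rw [smul_mul_assoc, ← Algebra.commutes, ← Algebra.smul_def, smul_smul]

theorem unit_sub2 (A0 : Matrix ι ι K) (A : Fin n → Matrix ι ι K)
    (α : Fin n → Matrix (Fin k) (Fin k) K) (h : IsUnit (penG A0 A α)) (p q : Fin P → Fin k → K)
    (M t : ℕ) : IsUnit (penG A0 A (sub2 α p q (tup K M t))) := by
  rw [← isUnit_comp, comp_pen3]
  refine isUnit_penG_tup _ _ ?_ M t
  rw [con]
  exact (isUnit_comp _).2 h

/-- A formula defined at `α` is defined at the explicit point over `α`. -/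
theorem defined_sub2 (α : Fin n → Matrix (Fin k) (Fin k) K) (φ : RExp K n) (h : φ.Defined α)
    (p q : Fin P → Fin k → K) (M t : ℕ) : φ.Defined (sub2 α p q (tup K M t)) := by
  induction φ with
  | const c => trivial
  | var i => trivial
  | add a b iha ihb => exact ⟨iha h.1, ihb h.2⟩
  | mul a b iha ihb => exact ⟨iha h.1, ihb h.2⟩
  | inv a iha =>
    refine ⟨iha h.1, ?_⟩
    obtain ⟨ι, i1, i2, A0, A, -, hA⟩ := linearise_inv a
    exact (hA _ _ (iha h.1)).1 (unit_sub2 A0 A α ((hA _ α h.1).2 h.2) p q M t)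

/-- **The shift lemma.** -/
theorem shift2 [CharZero K] (hk : 0 < k) (α : Fin n → Matrix (Fin k) (Fin k) K)
    (A0 : Matrix ι ι K) (A : Fin n → Matrix ι ι K) (u v : ι → K) (hα : IsUnit (penG A0 A α))
    (S : ℕ) (hS : Fintype.card ι ≤ S) (hP : S * S ≤ P) (M t : ℕ) (ht : S * P + 1 ≤ t)
    (hM : n * (P * P) * t ^ 4 ≤ M) {N : ℕ} (Y : Fin n → Matrix (Fin N) (Fin N) K)
    (y : Matrix (Fin N) (Fin N) K) (hY : Rep A0 A u v Y y) (hy : y ≠ 0) :
    ∃ W : K[X], W ≠ 0 ∧ ∀ ρ : K, W.eval ρ ≠ 0 →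
      ¬ Rep A0 A u v (sub2 α (pv k P ρ) (qv k P ρ) (tup K M t)) 0 := by
  classical
  let c : Fin k := ⟨0, hk⟩
  have hcon : IsUnit (con A0 A α) := by
    rw [con]
    exact (isUnit_comp _).2 hα
  obtain ⟨⟨L, G, h1, h2⟩, hL : L = _⟩ := hcon
  subst hL
  -- dimensions
  have hSS : S ≤ P := by
    rcases Nat.eq_zero_or_pos S with h | h
    · omega
    · exact (Nat.le_mul_of_pos_left S h).trans hP
  have d1 : Module.finrank K (ι → K) ≤ P := by
    rw [Module.finrank_fintype_fun_eq_card]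
    exact hS.trans hSS
  have d2 : Module.finrank K (Matrix ι ι K) ≤ P := by
    rw [Module.finrank_matrix, Module.finrank_self, mul_one]
    exact (Nat.mul_le_mul hS hS).trans hP
  -- the genericity conditions
  obtain ⟨W1, w1, g1⟩ := qw_family (K := K) (fun b : Fin k => (b : ℕ))
    (fun a b hab => Fin.ext hab) (rb G u c) P d1
  obtain ⟨W2, w2, g2⟩ := qw_family (K := K) (fun b : Fin k × Fin k => k * (b.1 : ℕ) + (b.2 : ℕ))
    (by
      rintro ⟨a, b⟩ ⟨a', b'⟩ hab
      have e1 : k * (a : ℕ) + (b : ℕ) = k * (a' : ℕ) + (b' : ℕ) := hab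
      have e2 : (a : ℕ) = (a' : ℕ) := by
        have := congrArg (· / k) e1
        simpa [Nat.mul_add_div hk, Nat.div_eq_of_lt b.2, Nat.div_eq_of_lt b'.2] using this
      have e3 : (b : ℕ) = (b' : ℕ) := by
        rw [e2] at e1
        omega
      exact Prod.ext (Fin.ext e2) (Fin.ext e3)) (fun b => gb G b.1 b.2) P d2
  obtain ⟨W3, w3, g3⟩ := qw_family (K := K) (fun b : Fin k => k * (b : ℕ))
    (fun a b hab => Fin.ext (Nat.eq_of_mul_eq_mul_left hk hab)) (cb G v c) P d1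
  refine ⟨W1 * W2 * W3, mul_ne_zero (mul_ne_zero w1 w2) w3, fun ρ hρ h0 => hy ?_⟩
  rw [Polynomial.eval_mul, Polynomial.eval_mul, mul_ne_zero_iff, mul_ne_zero_iff] at hρ
  obtain ⟨⟨hρ1, hρ2⟩, hρ3⟩ := hρ
  have H1 : ∀ φ : Module.Dual K (ι → K), (∀ l, φ (∑ b, pv k P ρ l b • rb G u c b) = 0) →
      ∀ b, φ (rb G u c b) = 0 := fun φ hφ => g1 ρ hρ1 φ fun l hl => hφ ⟨l, hl⟩
  have H2 : ∀ φ : Module.Dual K (Matrix ι ι K),
      (∀ l, φ (∑ y, ∑ b, (qv k P ρ l y * pv k P ρ l b) • gb G y b) = 0) →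
      ∀ y b, φ (gb G y b) = 0 := by
    intro φ hφ y b
    refine g2 ρ hρ2 φ (fun l hl => ?_) (y, b)
    rw [← hφ ⟨l, hl⟩, Fintype.sum_prod_type]
    congr 1
    refine Finset.sum_congr rfl fun y _ => Finset.sum_congr rfl fun b _ => ?_
    rw [qv, pv, pow_add]
  have H3 : ∀ φ : Module.Dual K (ι → K), (∀ l, φ (∑ y, qv k P ρ l y • cb G v c y) = 0) →
      ∀ y, φ (cb G v c y) = 0 := fun φ hφ => g3 ρ hρ3 φ fun l hl => hφ ⟨l, hl⟩
  -- the small series vanishes
  have h3 := rep_small A0 A u v α _ _ G h1 h2 _ _ h0 c c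
  rw [Matrix.zero_apply] at h3
  have h4 := null_of_tup _ _ _ _ isUnit_one M t (by
    rw [Fintype.card_sum, Fintype.card_prod, Fintype.card_unit, Fintype.card_fin]
    exact le_trans (Nat.add_le_add_right (Nat.mul_le_mul_right P hS) 1) ht) hM h3
  have h5 := null_trans A0 A u v α _ _ G h1 c c H1 H2 H3 h4
  -- the value at `Y`
  let f : Matrix (Fin N) (Fin N) K →ₐ[K] Matrix (Fin k) (Fin k) (Matrix (Fin N) (Fin N) K) :=
    Matrix.scalarAlgHom (Fin k) K
  have h6 := rep_map f A0 A u v Y y hY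
  let T : Fin (n * (k * k)) → Matrix (Fin N) (Fin N) K := fun w =>
    f (Y (finProdFinEquiv.symm w).1) (finProdFinEquiv.symm (finProdFinEquiv.symm w).2).1
      (finProdFinEquiv.symm (finProdFinEquiv.symm w).2).2 -
      algebraMap K _ (α (finProdFinEquiv.symm w).1 (finProdFinEquiv.symm (finProdFinEquiv.symm w).2).1
      (finProdFinEquiv.symm (finProdFinEquiv.symm w).2).2)
  have h7 : (fun i => f (Y i)) = NCR.sub α T := by
    funext i
    ext a b
    rw [NCR.sub, Matrix.of_apply]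
    simp only [T, enc, Equiv.symm_apply_apply]
    rw [add_sub_cancel]
  rw [h7] at h6
  have h8 := rep_entry A0 A u v α T _ h6 c c
  have hcu : IsUnit (con A0 A α) := ⟨⟨_, G, h1, h2⟩, rfl⟩
  have h9 := rep_zero_of_null _ _ _ _ hcu h5 T _ h8
  have h10 : f y c c = y := by
    show Matrix.scalar (Fin k) y c c = _
    rw [Matrix.scalar_apply, Matrix.diagonal_apply_eq]
  rw [← h10, h9]

end Pool.Agent.NCS
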