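import Mathlib
import Pool.Agent.NCS.Shift2
import Pool.Agent.NCR.Tower

/-!
NCS: the tower of explicit tuples; the dimension is multiplied by a fixed number in every step.
-/

set_option autoImplicit false

namespace Pool.Agent.NCS

open Pool.Agent.NCP Pool.Agent.NCR Polynomial

universe u

/-- Size of the Jordan blocks. -/
def tS (S : ℕ) : ℕ := S * (S * S) + 1

/-- Length of the nilpotent matrices. -/
def mS (n S : ℕ) : ℕ := n * ((S * S) * (S * S)) * tS S ^ 4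

/-- The dimensions. -/
def kS (n S : ℕ) : ℕ → ℕ
  | 0 => 1
  | h + 1 => kS n S h * ((mS n S + 1) * tS S)

theorem kS_eq (n S h : ℕ) : kS n S h = ((mS n S + 1) * tS S) ^ h := by
  induction h with
  | zero => rfl
  | succ h ih => rw [kS, ih, pow_succ]

theorem kS_pos (n S h : ℕ) : 0 < kS n S h := by
  rw [kS_eq]
  exact Nat.pow_pos (Nat.mul_pos (Nat.succ_pos _) (Nat.succ_pos _))

instance (n S h : ℕ) : NeZero (kS n S h) := ⟨(kS_pos n S h).ne'⟩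

variable {K : Type u} [Field K] {n k : ℕ}

/-- The point `α ⊗ 1 + ∑ p_l q_l'ᵀ ⊗ T_(i,l,l')` as one matrix, where `p_l` has the entries
`(2 ^ l ρ) ^ b` and `q_l` has the entries `(2 ^ l ρ) ^ (k b)`, `b < k`. -/
noncomputable def sh2 (K : Type u) [Field K] {A : Type u} [CommRing A] [Algebra K A] (P M t : ℕ)
    (ρ : A) (α : Fin n → Matrix (Fin k) (Fin k) A) (i : Fin n) :
    Matrix (Fin (k * ((M + 1) * t))) (Fin (k * ((M + 1) * t))) A :=
  Matrix.of fun x y =>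
    (if ((ie k M t).symm x).2 = ((ie k M t).symm y).2 then
      α i ((ie k M t).symm x).1 ((ie k M t).symm y).1 else 0) +
    ∑ l : Fin P, ∑ l' : Fin P, (2 ^ (l : ℕ) * ρ) ^ (((ie k M t).symm x).1 : ℕ) *
      (2 ^ (l' : ℕ) * ρ) ^ (k * (((ie k M t).symm y).1 : ℕ)) *
      algebraMap K A (tup K M t (enc i l l') ((ie k M t).symm x).2 ((ie k M t).symm y).2)

/-- The explicit tuples: `θ (3 h)`, `θ (3 h + 1)`, `θ (3 h + 2)` are the parameters of the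
step `h`. -/
noncomputable def Xu (K : Type u) [Field K] (ζ : ℕ → K) (n S : ℕ) {A : Type u} [CommRing A]
    [Algebra K A] (θ : ℕ → A) : (h : ℕ) → Fin n → Matrix (Fin (kS n S h)) (Fin (kS n S h)) A
  | 0 => 0
  | h + 1 => fun i => tw (N := kS n S (h + 1)) (ζ (h + 1)) (θ (3 * h + 1)) (θ (3 * h + 2))
      (sh2 K (S * S) (mS n S) (tS S) (θ (3 * h)) (Xu K ζ n S θ h) i)

theorem fe_sub2 (P M t : ℕ) (ρ : K) (α : Fin n → Matrix (Fin k) (Fin k) K) (i : Fin n) :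
    fe k M t (sub2 α (pv k P ρ) (qv k P ρ) (tup K M t) i) = sh2 K P M t ρ α i := by
  ext x y
  have h1 : fe k M t (sub2 α (pv k P ρ) (qv k P ρ) (tup K M t) i) x y =
      (sub2 α (pv k P ρ) (qv k P ρ) (tup K M t) i) ((ie k M t).symm x).1 ((ie k M t).symm y).1
        ((ie k M t).symm x).2 ((ie k M t).symm y).2 := rfl
  rw [h1, sub2, Matrix.of_apply, Matrix.add_apply, Matrix.algebraMap_matrix_apply, sh2,
    Matrix.of_apply]
  congr 1
  rw [Matrix.sum_apply]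
  refine Finset.sum_congr rfl fun l _ => ?_
  rw [Matrix.sum_apply]
  refine Finset.sum_congr rfl fun l' _ => ?_
  rw [Matrix.smul_apply, smul_eq_mul, pv, qv]
  rfl

theorem sh2_map {A A' : Type u} [CommRing A] [Algebra K A] [CommRing A'] [Algebra K A']
    (e : A →ₐ[K] A') (P M t : ℕ) (ρ : A) (α : Fin n → Matrix (Fin k) (Fin k) A) (i : Fin n) :
    (sh2 K P M t ρ α i).map e = sh2 K P M t (e ρ) (fun i => (α i).map e) i := by
  ext x y
  rw [Matrix.map_apply, sh2, Matrix.of_apply, sh2, Matrix.of_apply, map_add, map_sum]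
  congr 1
  · split_ifs
    · rfl
    · exact map_zero e
  · refine Finset.sum_congr rfl fun l _ => ?_
    rw [map_sum]
    refine Finset.sum_congr rfl fun l' _ => ?_
    rw [map_mul, map_mul, map_pow, map_pow, map_mul, map_mul, map_pow, map_pow, AlgHom.commutes,
      map_ofNat]

theorem Xu_map (ζ : ℕ → K) (S : ℕ) {A A' : Type u} [CommRing A] [Algebra K A] [CommRing A']
    [Algebra K A'] (e : A →ₐ[K] A') (θ : ℕ → A) (h : ℕ) (i : Fin n) :
    (Xu K ζ n S θ h i).map e = Xu K ζ n S (fun l => e (θ l)) h i := by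
  induction h generalizing i with
  | zero =>
    ext p q
    exact map_zero e
  | succ h ih =>
    have h1 : (fun i => (Xu K ζ n S θ h i).map e) = Xu K ζ n S (fun l => e (θ l)) h :=
      funext fun i => ih i
    have h2 := tw_map (N := kS n S (h + 1)) e (ζ (h + 1)) (θ (3 * h + 1)) (θ (3 * h + 2))
      (sh2 K (S * S) (mS n S) (tS S) (θ (3 * h)) (Xu K ζ n S θ h) i)
    have h3 := sh2_map e (S * S) (mS n S) (tS S) (θ (3 * h)) (Xu K ζ n S θ h) i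
    rw [h1] at h3
    refine h2.trans ?_
    show tw (N := kS n S (h + 1)) _ _ _ _ = tw (N := kS n S (h + 1)) _ _ _ _
    congr 1

theorem Xu_congr (ζ : ℕ → K) (S : ℕ) {A : Type u} [CommRing A] [Algebra K A] (θ θ' : ℕ → A)
    (h : ℕ) (hθ : ∀ l < 3 * h, θ l = θ' l) : Xu K ζ n S θ h = Xu K ζ n S θ' h := by
  induction h with
  | zero => rfl
  | succ h ih =>
    have h1 := ih fun l hl => hθ l (by omega)
    funext i
    rw [Xu, Xu, h1, hθ (3 * h) (by omega), hθ (3 * h + 1) (by omega), hθ (3 * h + 2) (by omega)]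

theorem defined_sh2 (α : Fin n → Matrix (Fin k) (Fin k) K) (φ : RExp K n) (h : φ.Defined α)
    (P M t : ℕ) (ρ : K) : φ.Defined (sh2 K P M t ρ α) := by
  have h1 := (defined_equiv (fe (K := K) k M t) _ φ).2
    (defined_sub2 α φ h (pv k P ρ) (qv k P ρ) M t)
  have h2 : (fun i => fe (K := K) k M t (sub2 α (pv k P ρ) (qv k P ρ) (tup K M t) i)) =
      sh2 K P M t ρ α := funext fun i => fe_sub2 P M t ρ α i
  rwa [h2] at h1

/-- One formula. -/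
theorem shift_formula [CharZero K] (hk : 0 < k) (α : Fin n → Matrix (Fin k) (Fin k) K)
    (φ : RExp K n) (h : φ.Defined α) (S : ℕ) (hS : 2 * φ.size ≤ S) {N : ℕ}
    (Y : Fin n → Matrix (Fin N) (Fin N) K) (hY : φ.Defined Y) (hy : φ.eval Y ≠ 0) :
    ∃ W : K[X], W ≠ 0 ∧ ∀ ρ : K, W.eval ρ ≠ 0 →
      φ.eval (sh2 K (S * S) (mS n S) (tS S) ρ α) ≠ 0 := by
  obtain ⟨ι, i1, i2, A0, A, u, v, hc, hA⟩ := linearise φ
  have hα : IsUnit (penG A0 A α) := by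
    obtain ⟨B, h1, h2, -⟩ := hA _ α h
    exact ⟨⟨_, B, h1, h2⟩, rfl⟩
  obtain ⟨W, h1, h2⟩ := shift2 hk α A0 A u v hα S (hc.trans hS) le_rfl (mS n S) (tS S) le_rfl
    le_rfl Y _ (hA _ Y hY) hy
  refine ⟨W, h1, fun ρ hρ h0 => h2 ρ hρ ?_⟩
  have h3 := defined_sub2 α φ h (pv k (S * S) ρ) (qv k (S * S) ρ) (mS n S) (tS S)
  have h4 := hA _ _ h3
  have h5 := (defined_hom (fe (K := K) k (mS n S) (tS S)).toAlgHom _ φ h3).2
  have h6 : (fun i => (fe (K := K) k (mS n S) (tS S)).toAlgHom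
      (sub2 α (pv k (S * S) ρ) (qv k (S * S) ρ) (tup K (mS n S) (tS S)) i)) =
      sh2 K (S * S) (mS n S) (tS S) ρ α := funext fun i => fe_sub2 _ _ _ ρ α i
  rw [h6, h0] at h5
  have h7 := (fe (K := K) k (mS n S) (tS S)).injective (h5.symm.trans (map_zero _).symm)
  rwa [h7] at h4

/-- Several formulas. -/
theorem shift_list [CharZero K] (hk : 0 < k) (α : Fin n → Matrix (Fin k) (Fin k) K) (S : ℕ)
    (Φ : List (RExp K n)) (h : ∀ φ ∈ Φ, φ.Defined α ∧ 2 * φ.size ≤ S ∧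
      ∃ (N : ℕ) (Y : Fin n → Matrix (Fin N) (Fin N) K), φ.Defined Y ∧ φ.eval Y ≠ 0) :
    ∃ ρ : K, ∀ φ ∈ Φ, φ.eval (sh2 K (S * S) (mS n S) (tS S) ρ α) ≠ 0 := by
  have key : ∃ W : K[X], W ≠ 0 ∧ ∀ φ ∈ Φ, ∀ ρ : K, W.eval ρ ≠ 0 →
      φ.eval (sh2 K (S * S) (mS n S) (tS S) ρ α) ≠ 0 := by
    induction Φ with
    | nil => exact ⟨1, one_ne_zero, fun φ hφ => by simp at hφ⟩
    | cons φ Φ ih =>
      obtain ⟨W, h1, h2⟩ := ih fun ψ hψ => h ψ (List.mem_cons_of_mem _ hψ)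
      obtain ⟨h3, h4, N, Y, h5, h6⟩ := h φ List.mem_cons_self
      obtain ⟨W', h7, h8⟩ := shift_formula hk α φ h3 S h4 Y h5 h6
      refine ⟨W * W', mul_ne_zero h1 h7, fun ψ hψ ρ hρ => ?_⟩
      rw [Polynomial.eval_mul, mul_ne_zero_iff] at hρ
      rcases List.mem_cons.1 hψ with rfl | h9
      · exact h8 ρ hρ.2
      · exact h2 ψ h9 ρ hρ.1
  obtain ⟨W, h1, h2⟩ := key
  obtain ⟨ρ, h3⟩ : ∃ ρ : K, W.eval ρ ≠ 0 := by
    by_contra hcon
    push Not at hcon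
    exact h1 (Polynomial.funext fun ρ => by rw [hcon ρ, Polynomial.eval_zero])
  exact ⟨ρ, fun φ hφ => h2 φ hφ ρ h3⟩

/-- One step. -/
theorem step2 [CharZero K] (ζ : ℕ → K) (S h : ℕ) (hζ : IsPrimitiveRoot (ζ (h + 1)) (kS n S (h + 1)))
    (θ : ℕ → K) (Φ : List (RExp K n)) (hΦ : ∀ φ ∈ Φ, 2 * φ.size ≤ S ∧
      φ.Defined (Xu K ζ n S θ h) ∧
      ∃ (N : ℕ) (Y : Fin n → Matrix (Fin N) (Fin N) K), φ.Defined Y ∧ φ.eval Y ≠ 0) :
    ∃ θ' : ℕ → K, ∀ φ ∈ Φ, (RExp.inv φ).Defined (Xu K ζ n S θ' (h + 1)) := by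
  obtain ⟨ρ, hρ⟩ := shift_list (kS_pos n S h) (Xu K ζ n S θ h) S Φ fun φ hφ => by
    obtain ⟨h2, h3, h4⟩ := hΦ φ hφ
    exact ⟨h3, h2, h4⟩
  have h1 : ∀ φ ∈ Φ, φ.Defined (sh2 K (S * S) (mS n S) (tS S) ρ (Xu K ζ n S θ h)) ∧
      φ.eval (sh2 K (S * S) (mS n S) (tS S) ρ (Xu K ζ n S θ h)) ≠ 0 := fun φ hφ =>
    ⟨defined_sh2 _ φ (hΦ φ hφ).2.1 _ _ _ ρ, hρ φ hφ⟩
  obtain ⟨τ, μ, h2⟩ := twist (N := kS n S (h + 1)) (ζ (h + 1)) hζ
    (sh2 K (S * S) (mS n S) (tS S) ρ (Xu K ζ n S θ h)) Φ h1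
  refine ⟨fun l => if l = 3 * h then ρ else if l = 3 * h + 1 then τ else
    if l = 3 * h + 2 then μ else θ l, fun φ hφ => ?_⟩
  have h3 := h2 φ hφ
  have h4 : Xu K ζ n S (fun l => if l = 3 * h then ρ else if l = 3 * h + 1 then τ else
      if l = 3 * h + 2 then μ else θ l) h = Xu K ζ n S θ h := by
    refine Xu_congr ζ S _ _ h fun l hl => ?_
    rw [if_neg (by omega), if_neg (by omega), if_neg (by omega)]
  have h5 : Xu K ζ n S (fun l => if l = 3 * h then ρ else if l = 3 * h + 1 then τ else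
      if l = 3 * h + 2 then μ else θ l) (h + 1) =
      fun i => tw (N := kS n S (h + 1)) (ζ (h + 1)) τ μ
        (sh2 K (S * S) (mS n S) (tS S) ρ (Xu K ζ n S θ h) i) := by
    funext i
    rw [Xu, h4, if_pos rfl, if_neg (by omega), if_pos rfl, if_neg (by omega), if_neg (by omega),
      if_pos rfl]
  rw [h5]
  exact h3

/-- **The tower lemma.** -/
theorem tower2 [CharZero K] (ζ : ℕ → K) (S h : ℕ)
    (hζ : ∀ j, 1 ≤ j → j ≤ h → IsPrimitiveRoot (ζ j) (kS n S j)) (Φ : List (RExp K n))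
    (hΦ : ∀ φ ∈ Φ, 2 * φ.size ≤ S ∧ Lv h φ ∧
      ∃ (N : ℕ) (Y : Fin n → Matrix (Fin N) (Fin N) K), 0 < N ∧ φ.Defined Y) :
    ∃ θ : ℕ → K, ∀ φ ∈ Φ, φ.Defined (Xu K ζ n S θ h) := by
  induction h generalizing Φ with
  | zero =>
    refine ⟨0, fun φ hφ => ?_⟩
    obtain ⟨-, h1, -⟩ := hΦ φ hφ
    rw [Lv] at h1
    have h2 := (defined_hom (Algebra.ofId K (Matrix (Fin 1) (Fin 1) K)) _ φ h1).1
    have h3 : (fun i => Algebra.ofId K (Matrix (Fin 1) (Fin 1) K) ((0 : Fin n → K) i)) =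
        Xu K ζ n S 0 0 := by
      funext i
      rw [Pi.zero_apply, map_zero]
      rfl
    rwa [h3] at h2
  | succ h ih =>
    have h1 : ∀ a ∈ Φ.flatMap args, 2 * a.size ≤ S ∧ Lv h a ∧
        ∃ (N : ℕ) (Y : Fin n → Matrix (Fin N) (Fin N) K), 0 < N ∧ a.Defined Y ∧ a.eval Y ≠ 0 := by
      intro a ha
      obtain ⟨φ, hφ, haφ⟩ := List.mem_flatMap.1 ha
      obtain ⟨h2, h3, N, Y, hN, hY⟩ := hΦ φ hφ
      refine ⟨(Nat.mul_le_mul_left 2 (size_args φ a haφ)).trans h2, lv_args h φ h3 a haφ, N, Y,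
        hN, ?_⟩
      obtain ⟨h4, h5⟩ := (defined_iff_args Y φ).1 hY a haφ
      refine ⟨h4, fun h6 => ?_⟩
      rw [h6] at h5
      have : Nonempty (Fin N) := ⟨⟨0, hN⟩⟩
      exact not_isUnit_zero h5
    obtain ⟨θ, h2⟩ := ih (fun j hj hj' => hζ j hj (by omega)) (Φ.flatMap args) fun a ha => by
      obtain ⟨h3, h4, N, Y, hN, hY, -⟩ := h1 a ha
      exact ⟨h3, h4, N, Y, hN, hY⟩
    obtain ⟨θ', h3⟩ := step2 ζ S h (hζ (h + 1) (by omega) le_rfl) θ (Φ.flatMap args) fun a ha => by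
      obtain ⟨h4, h5, N, Y, hN, hY, hY'⟩ := h1 a ha
      exact ⟨h4, h2 a ha, N, Y, hY, hY'⟩
    refine ⟨θ', fun φ hφ => ?_⟩
    rw [defined_iff_args]
    intro a ha
    exact h3 a (List.mem_flatMap.2 ⟨φ, hφ, ha⟩)

theorem tower_inv2 [CharZero K] (ζ : ℕ → K) (S h : ℕ)
    (hζ : ∀ j, 1 ≤ j → j ≤ h + 1 → IsPrimitiveRoot (ζ j) (kS n S j)) (φ : RExp K n)
    (hs : 2 * φ.size ≤ S) (hφ : Lv h φ)
    (hY : ∃ (N : ℕ) (Y : Fin n → Matrix (Fin N) (Fin N) K), φ.Defined Y ∧ φ.eval Y ≠ 0) :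
    ∃ θ : ℕ → K, (RExp.inv φ).Defined (Xu K ζ n S θ (h + 1)) := by
  obtain ⟨N, Y, h1, h2⟩ := hY
  have hN : 0 < N := by
    rcases Nat.eq_zero_or_pos N with h3 | h3
    · subst h3
      exact absurd (Subsingleton.elim _ _) h2
    · exact h3
  obtain ⟨θ, h3⟩ := tower2 ζ S h (fun j hj hj' => hζ j hj (by omega)) [φ] fun ψ hψ => by
    rw [List.mem_singleton] at hψ
    subst hψ
    exact ⟨hs, hφ, N, Y, hN, h1⟩
  obtain ⟨θ', h4⟩ := step2 ζ S h (hζ (h + 1) (by omega) le_rfl) θ [φ] fun ψ hψ => by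
    have h5 := h3 ψ hψ
    rw [List.mem_singleton] at hψ
    subst hψ
    exact ⟨hs, h5, N, Y, h1, h2⟩
  exact ⟨θ', h4 φ (List.mem_singleton.2 rfl)⟩

end Pool.Agent.NCS
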