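import Mathlib
import Pool.Agent.NCS.Tower2
import Pool.Agent.NCR.Height

/-!
NCS: the parameters can be chosen to be small natural numbers; extension of the constants.
-/

set_option autoImplicit false

namespace Pool.Agent.NCS

open Pool.Agent.NCP Pool.Agent.NCR Polynomial

universe u

variable {K : Type u} [Field K] {n k : ℕ}

theorem kS_mono (n S h : ℕ) : kS n S h ≤ kS n S (h + 1) := by
  rw [kS]
  exact Nat.le_mul_of_pos_right _ (Nat.mul_pos (Nat.succ_pos _) (Nat.succ_pos _))

theorem natDegree_sh2 (P M t d e : ℕ) (ρ : K[X]) (hρ : ρ.natDegree ≤ e)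
    (α : Fin n → Matrix (Fin k) (Fin k) K[X])
    (hα : ∀ i p q, (α i p q).natDegree ≤ d) (i : Fin n) (x y : Fin (k * ((M + 1) * t))) :
    (sh2 K P M t ρ α i x y).natDegree ≤ d + k * k * e := by
  have h2 : ∀ l : ℕ, ((2 : K[X]) ^ l * ρ).natDegree ≤ e := by
    intro l
    refine (Polynomial.natDegree_mul_le).trans ?_
    have h3 : ((2 : K[X]) ^ l).natDegree = 0 := by
      have h4 : (2 : K[X]) ^ l = C ((2 : K) ^ l) := by
        rw [map_pow]
        rfl
      rw [h4, Polynomial.natDegree_C]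
    rw [h3, zero_add]
    exact hρ
  rw [sh2, Matrix.of_apply]
  refine (Polynomial.natDegree_add_le _ _).trans (max_le ?_ ?_)
  · split_ifs
    · exact (hα _ _ _).trans (Nat.le_add_right _ _)
    · simp
  · refine le_trans ?_ (Nat.le_add_left _ _)
    refine Polynomial.natDegree_sum_le_of_forall_le _ _ fun l _ => ?_
    refine Polynomial.natDegree_sum_le_of_forall_le _ _ fun l' _ => ?_
    set b := ((ie k M t).symm x).1
    set c := ((ie k M t).symm y).1
    have e1 := (Polynomial.natDegree_pow_le (p := (2 : K[X]) ^ (l : ℕ) * ρ)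
      (n := (b : ℕ))).trans (Nat.mul_le_mul_left _ (h2 l))
    have e2 := (Polynomial.natDegree_pow_le (p := (2 : K[X]) ^ (l' : ℕ) * ρ)
      (n := k * (c : ℕ))).trans (Nat.mul_le_mul_left _ (h2 l'))
    refine (Polynomial.natDegree_mul_le).trans ?_
    rw [natDegree_algebraMap, add_zero]
    refine (Polynomial.natDegree_mul_le).trans ((Nat.add_le_add e1 e2).trans ?_)
    rw [← Nat.add_mul]
    refine Nat.mul_le_mul_right e ?_
    have hb := b.2
    have hc := c.2
    calc (b : ℕ) + k * (c : ℕ) ≤ k + k * (c : ℕ) := by omega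
      _ = k * ((c : ℕ) + 1) := by ring
      _ ≤ k * k := Nat.mul_le_mul_left k hc

theorem natDegree_Xu (ζ : ℕ → K) (S : ℕ) (θ : ℕ → K[X]) (δ : ℕ → ℕ)
    (hθ : ∀ l, (θ l).natDegree ≤ δ l) (h : ℕ) (i : Fin n) (p q : Fin (kS n S h)) :
    (Xu K ζ n S θ h i p q).natDegree ≤
      kS n S h * kS n S h * ∑ l ∈ Finset.range (3 * h), δ l := by
  induction h generalizing i with
  | zero =>
    show (0 : K[X]).natDegree ≤ _
    simp
  | succ h ih =>
    have h1 := natDegree_tw (N := kS n S (h + 1)) (ζ (h + 1)) (θ (3 * h + 1)) (θ (3 * h + 2)) _ _ _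
      (hθ _) (hθ _) (sh2 K (S * S) (mS n S) (tS S) (θ (3 * h)) (Xu K ζ n S θ h) i)
      (natDegree_sh2 _ _ _ _ _ _ (hθ (3 * h)) _ (fun i p q => ih i p q) i) p q
    refine h1.trans ?_
    rw [show 3 * (h + 1) = 3 * h + 1 + 1 + 1 by ring, Finset.sum_range_succ, Finset.sum_range_succ,
      Finset.sum_range_succ]
    have h2 := kS_mono n S h
    have h3 := kS_pos n S (h + 1)
    set k' := kS n S (h + 1)
    set k := kS n S h
    have h4 : k * k ≤ k' * k' := Nat.mul_le_mul h2 h2
    have h5 : k' ≤ k' * k' := Nat.le_mul_of_pos_left k' h3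
    set s := ∑ l ∈ Finset.range (3 * h), δ l
    have e1 : k' * (δ (3 * h + 1) + δ (3 * h + 2)) ≤ k' * k' * (δ (3 * h + 1) + δ (3 * h + 2)) :=
      Nat.mul_le_mul_right _ h5
    have e2 : k * k * s ≤ k' * k' * s := Nat.mul_le_mul_right _ h4
    have e3 : k * k * δ (3 * h) ≤ k' * k' * δ (3 * h) := Nat.mul_le_mul_right _ h4
    calc k' * (δ (3 * h + 1) + δ (3 * h + 2)) + (k * k * s + k * k * δ (3 * h)) ≤
        k' * k' * (δ (3 * h + 1) + δ (3 * h + 2)) + (k' * k' * s + k' * k' * δ (3 * h)) :=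
          Nat.add_le_add e1 (Nat.add_le_add e2 e3)
      _ = _ := by ring

/-- One coordinate as a family. -/
theorem coord_family (ζ : ℕ → K) (S h : ℕ) (θ : ℕ → K) (m : ℕ) :
    ∃ X' : Fin n → Matrix (Fin (kS n S h)) (Fin (kS n S h)) K[X],
      (∀ i p q, (X' i p q).natDegree ≤ kS n S h * kS n S h) ∧
      ∀ x : K, (fun i => (X' i).map (Polynomial.aeval x)) =
        Xu K ζ n S (Function.update θ m x) h := by
  refine ⟨Xu K ζ n S (fun l => if l = m then X else C (θ l)) h, ?_, ?_⟩
  · intro i p q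
    refine (natDegree_Xu ζ S _ (fun l => if l = m then 1 else 0) ?_ h i p q).trans ?_
    · intro l
      by_cases hl : l = m
      · simp [hl]
      · simp [hl]
    · have h1 : ∑ l ∈ Finset.range (3 * h), (if l = m then 1 else 0) ≤ 1 := by
        rw [Finset.sum_ite_eq']
        split_ifs <;> simp
      calc _ ≤ kS n S h * kS n S h * 1 := Nat.mul_le_mul_left _ h1
        _ = _ := mul_one _
  · intro x
    funext i
    rw [Xu_map]
    congr 1
    funext l
    by_cases hl : l = m
    · subst hl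
      simp
    · simp [hl]

/-- One coordinate. -/
theorem replace_coord2 [CharZero K] (ζ : ℕ → K) (S h : ℕ) (θ : ℕ → K) (m : ℕ) (ψ : RExp K n)
    (hψ : ψ.Defined (Xu K ζ n S θ h)) (B : ℕ)
    (hB : 2 * ψ.size ^ 2 * (kS n S h * (kS n S h * kS n S h)) ≤ B) :
    ∃ c : ℕ, c ≤ B ∧ ψ.Defined (Xu K ζ n S (Function.update θ m (c : K)) h) := by
  obtain ⟨X', h1, h2⟩ := coord_family (n := n) ζ S h θ m
  obtain ⟨c, h3, h4⟩ := small_param X' (kS n S h * kS n S h) h1 ψ (θ m) (by
    rw [h2, Function.update_eq_self]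
    exact hψ) B (by rwa [Fintype.card_fin])
  rw [h2] at h4
  exact ⟨c, h3, h4⟩

/-- A condition on the points which can be preserved when one parameter is replaced by a small
natural number can be preserved when all of them are. -/
theorem grid_gen (ζ : ℕ → K) (S h : ℕ) (Q : (Fin n → Matrix (Fin (kS n S h)) (Fin (kS n S h)) K) →
      Prop) (B : ℕ)
    (hQ : ∀ (θ : ℕ → K) (m : ℕ), Q (Xu K ζ n S θ h) →
      ∃ c : ℕ, c ≤ B ∧ Q (Xu K ζ n S (Function.update θ m (c : K)) h))
    (θ : ℕ → K) (hθ : Q (Xu K ζ n S θ h)) :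
    ∃ c : ℕ → ℕ, (∀ l, c l ≤ B) ∧ Q (Xu K ζ n S (fun l => (c l : K)) h) := by
  have key : ∀ m : ℕ, ∃ c : ℕ → ℕ, (∀ l, c l ≤ B) ∧
      Q (Xu K ζ n S (fun l => if l < m then (c l : K) else θ l) h) := by
    intro m
    induction m with
    | zero => exact ⟨fun _ => 0, fun _ => Nat.zero_le _, by simpa using hθ⟩
    | succ m ih =>
      obtain ⟨c, h1, h2⟩ := ih
      obtain ⟨x, h3, h4⟩ := hQ _ m h2
      refine ⟨Function.update c m x, fun l => ?_, ?_⟩
      · by_cases hl : l = m
        · subst hl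
          rw [Function.update_self]
          exact h3
        · rw [Function.update_of_ne hl]
          exact h1 l
      · have h5 : (fun l => if l < m + 1 then ((Function.update c m x l : ℕ) : K) else θ l) =
            Function.update (fun l => if l < m then (c l : K) else θ l) m (x : K) := by
          funext l
          by_cases hl : l = m
          · subst hl
            simp
          · rw [Function.update_of_ne hl, Function.update_of_ne hl]
            by_cases hl2 : l < m
            · rw [if_pos hl2, if_pos (by omega)]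
            · rw [if_neg hl2, if_neg (by omega)]
        rw [h5]
        exact h4
  obtain ⟨c, h1, h2⟩ := key (3 * h)
  refine ⟨c, h1, ?_⟩
  have h3 := Xu_congr (n := n) ζ S (fun l => (c l : K)) (fun l => if l < 3 * h then (c l : K) else θ l) h
    fun l hl => by rw [if_pos hl]
  rw [h3]
  exact h2

/-- **Formulas of level at most `h`.** -/
theorem level_hit2 {L : Type u} [Field L] [Algebra K L] [CharZero K] (ζ : ℕ → L) (s h : ℕ)
    (hζ : ∀ j, 1 ≤ j → j ≤ h + 1 → IsPrimitiveRoot (ζ j) (kS n (2 * s) j)) (φ : RExp K n)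
    (hs : φ.size ≤ s) (hφ : Lv h φ) (N : ℕ) (Y : Fin n → Matrix (Fin N) (Fin N) K)
    (hY : φ.Defined Y) (hY0 : φ.eval Y ≠ 0) (B : ℕ)
    (hB : 2 * (s + 1) ^ 2 * kS n (2 * s) (h + 1) ^ 3 ≤ B) :
    ∃ c : ℕ → ℕ, (∀ l, c l ≤ B) ∧
      φ.Defined (Xu L ζ n (2 * s) (fun l => (c l : L)) (h + 1)) ∧
      IsUnit (φ.eval (Xu L ζ n (2 * s) (fun l => (c l : L)) (h + 1))) := by
  have : CharZero L := charZero_of_injective_algebraMap (algebraMap K L).injective
  let f : Matrix (Fin N) (Fin N) K →ₐ[K] Matrix (Fin N) (Fin N) L :=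
    (Algebra.ofId K L).mapMatrix
  have hf : Function.Injective f := Matrix.map_injective (algebraMap K L).injective
  obtain ⟨h1, h2⟩ := mp_hom (L := L) f Y φ hY
  obtain ⟨θ, h3⟩ := tower_inv2 ζ (2 * s) h hζ (mp L φ)
    (by rw [size_mp]; exact Nat.mul_le_mul_left 2 hs) (mp_lv h φ hφ)
    ⟨N, _, h1, by
      rw [h2]
      intro h4
      exact hY0 (hf (h4.trans (map_zero f).symm))⟩
  obtain ⟨c, h5, h6⟩ := grid_gen ζ (2 * s) (h + 1) (fun x => (RExp.inv (mp L φ)).Defined x) B
    (fun θ m hθ => replace_coord2 ζ (2 * s) (h + 1) θ m _ hθ B (by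
      refine le_trans ?_ hB
      refine Nat.mul_le_mul (Nat.mul_le_mul_left 2 (Nat.pow_le_pow_left ?_ 2)) (le_of_eq (by ring))
      rw [RExp.size, size_mp]
      omega)) θ h3
  refine ⟨c, h5, ?_⟩
  obtain ⟨h7, h8⟩ := h6
  obtain ⟨h9, h10⟩ := mp_defined (L := L) (Xu L ζ n (2 * s) (fun l => (c l : L)) (h + 1)) φ
  rw [h9] at h8
  exact ⟨h10.1 h7, h8⟩

end Pool.Agent.NCS
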