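import Mathlib
import Pool.Agent.NCS.Grid2

/-!
NCS: pencils; block matrices over noncommutative rings.
-/

set_option autoImplicit false

namespace Pool.Agent.NCS

open Pool.Agent.NCP Pool.Agent.NCR Matrix

universe u

/-- Inverse of a block matrix by the Schur complement. -/
theorem schur {ι κ R : Type*} [Fintype ι] [DecidableEq ι] [Fintype κ] [DecidableEq κ] [Ring R]
    (A P : Matrix ι ι R) (B : Matrix ι κ R) (C : Matrix κ ι R) (D Z : Matrix κ κ R)
    (h1 : A * P = 1) (h2 : P * A = 1) (h3 : (D - C * P * B) * Z = 1)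
    (h4 : Z * (D - C * P * B) = 1) :
    Matrix.fromBlocks A B C D *
      Matrix.fromBlocks (P + P * B * Z * C * P) (-(P * B * Z)) (-(Z * C * P)) Z = 1 ∧
    Matrix.fromBlocks (P + P * B * Z * C * P) (-(P * B * Z)) (-(Z * C * P)) Z *
      Matrix.fromBlocks A B C D = 1 := by
  have h5 : D * Z = 1 + C * P * B * Z := by
    rw [Matrix.sub_mul] at h3
    exact sub_eq_iff_eq_add.1 h3
  have h6 : Z * D = 1 + Z * (C * P * B) := by
    rw [Matrix.mul_sub] at h4
    exact sub_eq_iff_eq_add.1 h4
  constructor
  · rw [Matrix.fromBlocks_multiply, ← Matrix.fromBlocks_one]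
    congr 1
    · have e1 : A * (P + P * B * Z * C * P) = (A * P) + (A * P) * (B * Z * C * P) := by
        rw [Matrix.mul_add]
        simp only [Matrix.mul_assoc]
      rw [e1, h1, Matrix.one_mul, Matrix.mul_neg]
      simp only [Matrix.mul_assoc]
      abel
    · have e1 : A * -(P * B * Z) = -((A * P) * (B * Z)) := by
        rw [Matrix.mul_neg]
        simp only [Matrix.mul_assoc]
      rw [e1, h1, Matrix.one_mul, neg_add_cancel]
    · have e1 : D * -(Z * C * P) = -((D * Z) * (C * P)) := by
        rw [Matrix.mul_neg]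
        simp only [Matrix.mul_assoc]
      rw [e1, h5, Matrix.mul_add, Matrix.add_mul, Matrix.one_mul]
      simp only [Matrix.mul_assoc]
      abel
    · rw [h5, Matrix.mul_neg]
      simp only [Matrix.mul_assoc]
      abel
  · rw [Matrix.fromBlocks_multiply, ← Matrix.fromBlocks_one]
    congr 1
    · have e1 : (P + P * B * Z * C * P) * A = (P * A) + (P * B * Z * C) * (P * A) := by
        rw [Matrix.add_mul]
        simp only [Matrix.mul_assoc]
      rw [e1, h2, Matrix.mul_one, Matrix.neg_mul]
      abel
    · have e1 : -(P * B * Z) * D = -((P * B) * (Z * D)) := by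
        rw [Matrix.neg_mul]
        simp only [Matrix.mul_assoc]
      rw [e1, h6, Matrix.mul_add, Matrix.add_mul, Matrix.mul_one]
      simp only [Matrix.mul_assoc]
      abel
    · have e1 : -(Z * C * P) * A = -((Z * C) * (P * A)) := by
        rw [Matrix.neg_mul]
        simp only [Matrix.mul_assoc]
      rw [e1, h2, Matrix.mul_one, neg_add_cancel]
    · rw [h6, Matrix.neg_mul]
      simp only [Matrix.mul_assoc]
      abel

/-- The identity does not factor through a smaller number of coordinates. -/
theorem no_factor {ι R : Type*} [Fintype ι] [DecidableEq ι] [Ring R] [Nontrivial R]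
    [IsStablyFiniteRing R] {s : ℕ} (hι : Fintype.card ι < s) (A : Matrix (Fin s) ι R)
    (B : Matrix ι (Fin s) R) : A * B ≠ 1 := by
  intro h
  have hc : Fintype.card (Fin s) = Fintype.card (ι ⊕ Fin (s - Fintype.card ι)) := by
    rw [Fintype.card_sum, Fintype.card_fin, Fintype.card_fin]
    omega
  have h1 : Matrix.fromCols A (0 : Matrix (Fin s) (Fin (s - Fintype.card ι)) R) *
      Matrix.fromRows B (0 : Matrix (Fin (s - Fintype.card ι)) (Fin s) R) = 1 := by
    rw [Matrix.fromCols_mul_fromRows, h, Matrix.zero_mul, add_zero]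
  rw [Matrix.mul_eq_one_comm_of_card_eq _ _ _ hc, Matrix.fromRows_mul_fromCols] at h1
  have h2 := congrFun (congrFun h1 (Sum.inr ⟨0, by omega⟩)) (Sum.inr ⟨0, by omega⟩)
  rw [Matrix.fromBlocks_apply₂₂, Matrix.zero_mul, Matrix.zero_apply, Matrix.one_apply_eq] at h2
  exact zero_ne_one h2

/-- An invertible compression of full size. -/
theorem unit_of_sandwich {ι R : Type*} [Fintype ι] [DecidableEq ι] [Ring R]
    [IsStablyFiniteRing R] {s : ℕ} (hι : Fintype.card ι = s) (P : Matrix ι (Fin s) R)
    (Q : Matrix (Fin s) ι R) (L : Matrix (Fin s) (Fin s) R) (h : IsUnit (P * L * Q)) :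
    IsUnit L := by
  obtain ⟨⟨_, G, h1, -⟩, rfl⟩ := h
  have hc : Fintype.card ι = Fintype.card (Fin s) := by rw [hι, Fintype.card_fin]
  have h2 : P * (L * Q * G) = 1 := by
    rw [← h1]
    simp only [Matrix.mul_assoc]
  rw [Matrix.mul_eq_one_comm_of_card_eq _ _ _ hc] at h2
  have h3 : L * (Q * G * P) = 1 := by
    rw [← h2]
    simp only [Matrix.mul_assoc]
  exact IsUnit.of_mul_eq_one _ h3

variable {K : Type u} [Field K] {n : ℕ}

/-- Compressions of pencils, with a constant matrix added. -/
theorem penG_sandwich {s : ℕ} {κ : Type} [Fintype κ] {R : Type*} [Ring R] [Algebra K R]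
    (A0 : Matrix (Fin s) (Fin s) K) (A : Fin n → Matrix (Fin s) (Fin s) K)
    (P : Matrix κ (Fin s) K) (Q : Matrix (Fin s) κ K) (C : Matrix κ κ K) (Y : Fin n → R) :
    penG (P * A0 * Q + C) (fun i => P * A i * Q) Y =
      P.map (algebraMap K R) * penG A0 A Y * Q.map (algebraMap K R) + C.map (algebraMap K R) := by
  have h0 : penG A0 A Y = A0.map (algebraMap K R) +
      ∑ i, Matrix.of fun a b => A i a b • Y i := by
    ext a b
    rw [penG, Matrix.of_apply, Matrix.add_apply, Matrix.map_apply, Matrix.sum_apply]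
    rfl
  have h1 : ∀ i, P.map (algebraMap K R) * (Matrix.of fun a b => A i a b • Y i) *
      Q.map (algebraMap K R) = Matrix.of fun a b => (P * A i * Q) a b • Y i := by
    intro i
    ext a b
    simp only [Matrix.mul_apply, Matrix.map_apply, Matrix.of_apply, Finset.sum_mul,
      Finset.sum_smul]
    refine Finset.sum_congr rfl fun c _ => Finset.sum_congr rfl fun d _ => ?_
    rw [← Algebra.smul_def, smul_smul, ← Algebra.commutes, ← Algebra.smul_def, smul_smul]
    congr 1
    ring
  rw [h0, Matrix.mul_add, Matrix.add_mul, Matrix.mul_sum, Matrix.sum_mul]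
  simp only [h1]
  ext a b
  rw [penG, Matrix.of_apply, Matrix.add_apply, Matrix.add_apply, Matrix.add_apply, Matrix.sum_apply,
    Matrix.map_apply, map_add, ← Matrix.map_mul, ← Matrix.map_mul, Matrix.map_apply]
  simp only [Matrix.of_apply]
  abel

end Pool.Agent.NCS
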