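import Mathlib
import Pool.Agent.NCS.Pen1

/-!
NCS: the twist for pencils; the Schur complement of a compression of a pencil.
-/

set_option autoImplicit false

namespace Pool.Agent.NCS

open Pool.Agent.NCP Pool.Agent.NCR Polynomial

universe u

variable {K : Type u} [Field K] {n : ℕ}

theorem rep_of_unit {ι : Type} [Fintype ι] [DecidableEq ι] {R : Type*} [Ring R] [Algebra K R]
    (A0 : Matrix ι ι K) (A : Fin n → Matrix ι ι K) (u v : ι → K) (Y : Fin n → R)
    (h : IsUnit (penG A0 A Y)) : ∃ x, Rep A0 A u v Y x := by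
  obtain ⟨⟨L, G, h1, h2⟩, hL : L = _⟩ := h
  subst hL
  refine ⟨(rowM R u * G * colM R v) () (), G, h1, h2, ?_⟩
  ext i j
  rfl

theorem unit_of_rep {ι : Type} [Fintype ι] [DecidableEq ι] {R : Type*} [Ring R] [Algebra K R]
    (A0 : Matrix ι ι K) (A : Fin n → Matrix ι ι K) (u v : ι → K) (Y : Fin n → R) (x : R)
    (h : Rep A0 A u v Y x) : IsUnit (penG A0 A Y) := by
  obtain ⟨B, h1, h2, -⟩ := h
  exact ⟨⟨_, B, h1, h2⟩, rfl⟩

theorem rep_unique {ι : Type} [Fintype ι] [DecidableEq ι] {R : Type*} [Ring R] [Algebra K R]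
    (A0 : Matrix ι ι K) (A : Fin n → Matrix ι ι K) (u v : ι → K) (Y : Fin n → R) (x y : R)
    (hx : Rep A0 A u v Y x) (hy : Rep A0 A u v Y y) : x = y := by
  obtain ⟨B, h1, h2, h3⟩ := hx
  obtain ⟨C, h4, h5, h6⟩ := hy
  have h7 : B = C := by
    calc B = B * (penG A0 A Y * C) := by rw [h4, Matrix.mul_one]
      _ = C := by rw [← Matrix.mul_assoc, h2, Matrix.one_mul]
  rw [h7, h6] at h3
  exact (congrFun (congrFun h3 ()) ()).symm

section twist

variable {N : ℕ} [NeZero N] {ι : Type} [Fintype ι] [DecidableEq ι]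

/-- The generic twist of a tuple. -/
noncomputable def gX (ζ : K) (β : Fin n → Matrix (Fin N) (Fin N) K) (i : Fin n) :
    Matrix (Fin N) (Fin N) K[X][X] := gtw ζ (β i)

theorem gX_pt (ζ : K) (β : Fin n → Matrix (Fin N) (Fin N) K) (τ μ : K) :
    (fun i => (gX ζ β i).map (pt τ μ)) = fun i => tw ζ τ μ (β i) :=
  funext fun i => pt_gtw ζ (β i) τ μ

theorem gX_one [CharZero K] (ζ : K) (hζ : IsPrimitiveRoot ζ N)
    (β : Fin n → Matrix (Fin N) (Fin N) K) : (fun i => (gX ζ β i).map (pt (1 : K) 1)) = β := by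
  rw [gX_pt]
  exact funext fun i => tw_one ζ hζ (β i)

/-- The twist of an invertible pencil. -/
theorem twist_unit [CharZero K] (ζ : K) (hζ : IsPrimitiveRoot ζ N)
    (β : Fin n → Matrix (Fin N) (Fin N) K) (A0 : Matrix ι ι K) (B : Fin n → Matrix ι ι K)
    (h : IsUnit (penG A0 B β)) : ∃ F : K[X][X], F ≠ 0 ∧
      ∀ τ μ : K, pt τ μ F ≠ 0 → IsUnit (penG A0 B fun i => tw ζ τ μ (β i)) := by
  refine ⟨(PC A0 B (gX ζ β)).det, ?_, ?_⟩
  · intro h1
    rw [← gX_one ζ hζ β] at h
    have h2 := (isUnit_penG_iff A0 B (pt (1 : K) 1) (gX ζ β)).1 h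
    rw [h1, map_zero] at h2
    exact h2 rfl
  · intro τ μ h1
    have h2 := (isUnit_penG_iff A0 B (pt τ μ) (gX ζ β)).2 h1
    rwa [gX_pt] at h2

/-- The twist of a represented value. -/
theorem twist_pen [CharZero K] (ζ : K) (hζ : IsPrimitiveRoot ζ N)
    (β : Fin n → Matrix (Fin N) (Fin N) K) (A0 : Matrix ι ι K) (B : Fin n → Matrix ι ι K)
    (u v : ι → K) (x : Matrix (Fin N) (Fin N) K) (h : Rep A0 B u v β x) (hx : x ≠ 0) :
    ∃ F : K[X][X], F ≠ 0 ∧ ∀ τ μ : K, pt τ μ F ≠ 0 →
      ∃ x' : Matrix (Fin N) (Fin N) K, Rep A0 B u v (fun i => tw ζ τ μ (β i)) x' ∧ IsUnit x' := by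
  have hu := unit_of_rep A0 B u v β x h
  have hnum : num A0 B u v (gX ζ β) ≠ 0 := by
    intro h1
    have h2 := num_map (pt (1 : K) 1) A0 B u v (gX ζ β)
    rw [gX_one ζ hζ, h1, num_rep A0 B u v β _ h] at h2
    have h3 : ((0 : Matrix (Fin N) (Fin N) K[X][X]).map (pt (1 : K) 1)) = 0 := by
      ext p q
      rw [Matrix.map_apply, Matrix.zero_apply, Matrix.zero_apply, map_zero]
    rw [h3] at h2
    rcases smul_eq_zero.1 h2.symm with h4 | h4
    · rw [← isUnit_comp, Matrix.isUnit_iff_isUnit_det] at hu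
      exact hu.ne_zero h4
    · exact hx h4
  have hdet : (num A0 B u v (gX ζ β)).det ≠ 0 := by
    refine sym_det ζ hζ _ ?_ ?_ hnum
    · intro k j p q
      have h1 := congrFun (congrFun (num_map (s1 ζ) A0 B u v (gX ζ β)) p) q
      have h2 : (fun i => (gX ζ β i).map (s1 ζ)) =
          fun i => (gX ζ β i).submatrix (· + 1) (· + 1) := by
        funext i
        ext1 p q
        rw [Matrix.map_apply, Matrix.submatrix_apply]
        exact s1_gtw ζ hζ (β i) p q
      rw [h2, num_shift, Matrix.map_apply] at h1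
      rw [← h1, s1_coeff]
    · intro k j p q hc
      have h1 := congrFun (congrFun (num_map (s2 ζ) A0 B u v (gX ζ β)) p) q
      have h2 : (fun i => (gX ζ β i).map (s2 ζ)) = fun i => Matrix.of fun (p q : Fin N) =>
          algebraMap K K[X][X] (ζ ^ (p : ℕ)) * algebraMap K K[X][X] (ζ⁻¹ ^ (q : ℕ)) *
            gX ζ β i p q := by
        funext i
        ext1 p q
        rw [Matrix.map_apply, Matrix.of_apply, ← map_mul, ← pow_sub ζ hζ]
        exact s2_gtw ζ (β i) p q
      rw [h2, num_clock A0 B u v (gX ζ β) (fun p : Fin N => algebraMap K K[X][X] (ζ ^ (p : ℕ)))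
        (fun q : Fin N => algebraMap K K[X][X] (ζ⁻¹ ^ (q : ℕ))), Matrix.map_apply, ← map_mul,
        ← pow_sub ζ hζ] at h1
      · have h3 := congrArg (fun f : K[X][X] => (f.coeff k).coeff j) h1
        simp only [s2_coeff] at h3
        have h4 : algebraMap K K[X][X] (ζ ^ ((p - q : Fin N) : ℕ)) =
            C (C (ζ ^ ((p - q : Fin N) : ℕ))) := rfl
        rw [h4, Polynomial.coeff_C_mul, Polynomial.coeff_C_mul, Polynomial.coeff_C_mul] at h3
        exact mul_right_cancel₀ hc h3
      · intro p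
        rw [← map_mul, ← mul_pow, mul_inv_cancel₀ (hζ.ne_zero (NeZero.pos N).ne'), one_pow, map_one]
  obtain ⟨F, hF0, hF⟩ := twist_unit ζ hζ β A0 B hu
  refine ⟨F * (num A0 B u v (gX ζ β)).det, mul_ne_zero hF0 hdet, fun τ μ h1 => ?_⟩
  rw [map_mul, mul_ne_zero_iff] at h1
  obtain ⟨x', hx'⟩ := rep_of_unit A0 B u v _ (hF τ μ h1.1)
  refine ⟨x', hx', ?_⟩
  have h2 : pt τ μ (num A0 B u v (gX ζ β)).det = ((num A0 B u v (gX ζ β)).map (pt τ μ)).det :=
    (pt τ μ : K[X][X] →+* K).map_det _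
  rw [h2, num_map, gX_pt, num_rep A0 B u v _ _ hx', Matrix.det_smul] at h1
  rw [Matrix.isUnit_iff_isUnit_det, isUnit_iff_ne_zero]
  exact (mul_ne_zero_iff.1 h1.2).2

end twist

section sigma

open Matrix

variable {ι : Type} [Fintype ι] [DecidableEq ι] {s : ℕ}

/-- The row `e_a`. -/
def ra (K : Type*) [Field K] {s : ℕ} (a : Fin s) : Matrix Unit (Fin s) K :=
  Matrix.of fun _ x => if x = a then 1 else 0

/-- The column `e_b`. -/
def ca (K : Type*) [Field K] {s : ℕ} (b : Fin s) : Matrix (Fin s) Unit K :=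
  Matrix.of fun x _ => if x = b then 1 else 0

/-- The rows for the Schur complement. -/
def P2 (P : Matrix ι (Fin s) K) (a : Fin s) : Matrix (ι ⊕ (Unit ⊕ Unit)) (Fin s) K :=
  Matrix.fromRows P (Matrix.fromRows (ra K a) (0 : Matrix Unit (Fin s) K))

/-- The columns for the Schur complement. -/
def Q2 (Q : Matrix (Fin s) ι K) (b : Fin s) : Matrix (Fin s) (ι ⊕ (Unit ⊕ Unit)) K :=
  Matrix.fromCols Q (Matrix.fromCols (ca K b) (0 : Matrix (Fin s) Unit K))

/-- The constant part. -/
def C2 (K : Type*) [Field K] (ι : Type) : Matrix (ι ⊕ (Unit ⊕ Unit)) (ι ⊕ (Unit ⊕ Unit)) K :=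
  Matrix.fromBlocks 0 0 0 (Matrix.fromBlocks 0 (-1) 1 0)

/-- The last coordinate. -/
def e2 (K : Type*) [Field K] (ι : Type) : ι ⊕ (Unit ⊕ Unit) → K :=
  Sum.elim 0 (Sum.elim 0 (fun _ => 1))

theorem ra_mul {R : Type*} [Ring R] [Algebra K R] {κ : Type} (a : Fin s) (Q : Matrix (Fin s) κ R)
    (i : Unit) (z : κ) : ((ra K a).map (algebraMap K R) * Q) i z = Q a z := by
  rw [Matrix.mul_apply, Finset.sum_eq_single a]
  · rw [Matrix.map_apply, ra, Matrix.of_apply, if_pos rfl, map_one, one_mul]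
  · intro x _ hx
    rw [Matrix.map_apply, ra, Matrix.of_apply, if_neg hx, map_zero, zero_mul]
  · intro h
    exact absurd (Finset.mem_univ _) h

theorem mul_ca {R : Type*} [Ring R] [Algebra K R] {κ : Type} (b : Fin s) (Q : Matrix κ (Fin s) R)
    (i : Unit) (z : κ) : (Q * (ca K b).map (algebraMap K R)) z i = Q z b := by
  rw [Matrix.mul_apply, Finset.sum_eq_single b]
  · rw [Matrix.map_apply, ca, Matrix.of_apply, if_pos rfl, map_one, mul_one]
  · intro x _ hx
    rw [Matrix.map_apply, ca, Matrix.of_apply, if_neg hx, map_zero, mul_zero]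
  · intro h
    exact absurd (Finset.mem_univ _) h

theorem P2_map {R : Type*} [Ring R] [Algebra K R] (P : Matrix ι (Fin s) K) (a : Fin s) :
    (P2 P a).map (algebraMap K R) = Matrix.fromRows (P.map (algebraMap K R))
      (Matrix.fromRows ((ra K a).map (algebraMap K R)) (0 : Matrix Unit (Fin s) R)) := by
  ext x y
  rcases x with x | x | x
  · rfl
  · rfl
  · exact map_zero (algebraMap K R)

theorem Q2_map {R : Type*} [Ring R] [Algebra K R] (Q : Matrix (Fin s) ι K) (b : Fin s) :
    (Q2 Q b).map (algebraMap K R) = Matrix.fromCols (Q.map (algebraMap K R))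
      (Matrix.fromCols ((ca K b).map (algebraMap K R)) (0 : Matrix (Fin s) Unit R)) := by
  ext x y
  rcases y with y | y | y
  · rfl
  · rfl
  · exact map_zero (algebraMap K R)

theorem C2_map {R : Type*} [Ring R] [Algebra K R] :
    (C2 K ι).map (algebraMap K R) = Matrix.fromBlocks (0 : Matrix ι ι R) 0 0
      (Matrix.fromBlocks (0 : Matrix Unit Unit R) (-1) 1 0) := by
  ext x y
  rcases x with x | x | x <;> rcases y with y | y | y <;>
    simp [C2]

theorem fromBlocks_sub' {l m n' o : Type*} {R : Type*} [Ring R] (A : Matrix n' l R)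
    (B : Matrix n' m R) (C : Matrix o l R) (D : Matrix o m R) (A' : Matrix n' l R)
    (B' : Matrix n' m R) (C' : Matrix o l R) (D' : Matrix o m R) :
    Matrix.fromBlocks A B C D - Matrix.fromBlocks A' B' C' D' =
      Matrix.fromBlocks (A - A') (B - B') (C - C') (D - D') := by
  ext x y
  rcases x with x | x <;> rcases y with y | y <;> rfl

theorem e2_row {R : Type*} [Ring R] [Algebra K R] {κ : Type} (X : Matrix (ι ⊕ (Unit ⊕ Unit)) κ R)
    (i : Unit) (z : κ) : (rowM R (e2 K ι) * X) i z = X (Sum.inr (Sum.inr ())) z := by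
  rw [Matrix.mul_apply, Finset.sum_eq_single (Sum.inr (Sum.inr ()))]
  · rw [rowM, Matrix.of_apply, e2, Sum.elim_inr, Sum.elim_inr, map_one, one_mul]
  · intro x _ hx
    rcases x with x | x | x
    · rw [rowM, Matrix.of_apply, e2, Sum.elim_inl, Pi.zero_apply, map_zero, zero_mul]
    · rw [rowM, Matrix.of_apply, e2, Sum.elim_inr, Sum.elim_inl, Pi.zero_apply, map_zero, zero_mul]
    · exact absurd rfl hx
  · intro h
    exact absurd (Finset.mem_univ _) h

theorem e2_col {R : Type*} [Ring R] [Algebra K R] {κ : Type} (X : Matrix κ (ι ⊕ (Unit ⊕ Unit)) R)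
    (i : Unit) (z : κ) : (X * colM R (e2 K ι)) z i = X z (Sum.inr (Sum.inr ())) := by
  rw [Matrix.mul_apply, Finset.sum_eq_single (Sum.inr (Sum.inr ()))]
  · rw [colM, Matrix.of_apply, e2, Sum.elim_inr, Sum.elim_inr, map_one, mul_one]
  · intro x _ hx
    rcases x with x | x | x
    · rw [colM, Matrix.of_apply, e2, Sum.elim_inl, Pi.zero_apply, map_zero, mul_zero]
    · rw [colM, Matrix.of_apply, e2, Sum.elim_inr, Sum.elim_inl, Pi.zero_apply, map_zero, mul_zero]
    · exact absurd rfl hx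
  · intro h
    exact absurd (Finset.mem_univ _) h

/-- The Schur complement is represented. -/
theorem sig_rep {R : Type*} [Ring R] [Algebra K R] (A0 : Matrix (Fin s) (Fin s) K)
    (A : Fin n → Matrix (Fin s) (Fin s) K) (P : Matrix ι (Fin s) K) (Q : Matrix (Fin s) ι K)
    (a b : Fin s) (Y : Fin n → R) (G : Matrix ι ι R)
    (h1 : P.map (algebraMap K R) * penG A0 A Y * Q.map (algebraMap K R) * G = 1)
    (h2 : G * (P.map (algebraMap K R) * penG A0 A Y * Q.map (algebraMap K R)) = 1) :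
    Rep (P2 P a * A0 * Q2 Q b + C2 K ι) (fun i => P2 P a * A i * Q2 Q b) (e2 K ι) (e2 K ι) Y
      ((penG A0 A Y - penG A0 A Y * Q.map (algebraMap K R) * G * P.map (algebraMap K R) *
        penG A0 A Y) a b) := by
  set L := penG A0 A Y with hL
  set PR := P.map (algebraMap K R)
  set QR := Q.map (algebraMap K R)
  set rR := (ra K a).map (algebraMap K R) with hrR
  set cR := (ca K b).map (algebraMap K R) with hcR
  set σ := (L - L * QR * G * PR * L) a b with hσ
  have hs : rR * L * cR - rR * L * QR * G * (PR * L * cR) = oneM σ := by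
    have h3 : rR * L * cR - rR * L * QR * G * (PR * L * cR) =
        rR * (L - L * QR * G * PR * L) * cR := by
      rw [Matrix.mul_sub, Matrix.sub_mul]
      simp only [Matrix.mul_assoc]
    rw [h3]
    ext i j
    rw [Matrix.mul_assoc, hrR, hcR, ra_mul, mul_ca]
    rfl
  have hp : penG (P2 P a * A0 * Q2 Q b + C2 K ι) (fun i => P2 P a * A i * Q2 Q b) Y =
      Matrix.fromBlocks (PR * L * QR) (Matrix.fromCols (PR * L * cR) (0 : Matrix ι Unit R))
        (Matrix.fromRows (rR * L * QR) (0 : Matrix Unit ι R))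
        (Matrix.fromBlocks (rR * L * cR) (-1) 1 0) := by
    have e1 : Matrix.fromRows PR (Matrix.fromRows rR (0 : Matrix Unit (Fin s) R)) * L =
        Matrix.fromRows (PR * L) (Matrix.fromRows (rR * L) (0 : Matrix Unit (Fin s) R)) := by
      rw [Matrix.fromRows_mul, Matrix.fromRows_mul, Matrix.zero_mul]
    have e2 : Matrix.fromRows (PR * L) (Matrix.fromRows (rR * L) (0 : Matrix Unit (Fin s) R)) *
        Matrix.fromCols QR (Matrix.fromCols cR (0 : Matrix (Fin s) Unit R)) =
        Matrix.fromBlocks (PR * L * QR) (Matrix.fromCols (PR * L * cR) (0 : Matrix ι Unit R))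
          (Matrix.fromRows (rR * L * QR) (0 : Matrix Unit ι R))
          (Matrix.fromBlocks (rR * L * cR) 0 0 0) := by
      rw [Matrix.fromRows_mul_fromCols, Matrix.mul_fromCols, Matrix.mul_zero, Matrix.fromRows_mul,
        Matrix.zero_mul, Matrix.fromRows_mul_fromCols, Matrix.mul_zero, Matrix.zero_mul,
        Matrix.mul_zero]
    rw [penG_sandwich, P2_map, Q2_map, C2_map, ← hL, e1, e2, Matrix.fromBlocks_add,
      Matrix.fromBlocks_add, add_zero, add_zero, add_zero, add_zero, zero_add, zero_add, zero_add]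
  have hS : Matrix.fromBlocks (rR * L * cR) (-1) (1 : Matrix Unit Unit R) 0 -
      Matrix.fromRows (rR * L * QR) (0 : Matrix Unit ι R) * G *
        Matrix.fromCols (PR * L * cR) (0 : Matrix ι Unit R) =
      Matrix.fromBlocks (oneM σ) (-1) (1 : Matrix Unit Unit R) 0 := by
    rw [Matrix.fromRows_mul, Matrix.zero_mul, Matrix.fromRows_mul_fromCols, Matrix.mul_zero,
      Matrix.zero_mul, Matrix.zero_mul, ← hs, fromBlocks_sub', sub_zero, sub_zero, sub_zero]
  have z1 : (Matrix.fromBlocks (rR * L * cR) (-1) (1 : Matrix Unit Unit R) 0 -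
      Matrix.fromRows (rR * L * QR) (0 : Matrix Unit ι R) * G *
        Matrix.fromCols (PR * L * cR) (0 : Matrix ι Unit R)) *
      Matrix.fromBlocks (0 : Matrix Unit Unit R) 1 (-1) (oneM σ) = 1 := by
    rw [hS, Matrix.fromBlocks_multiply, ← Matrix.fromBlocks_one]
    congr 1
    · rw [Matrix.mul_zero, zero_add, Matrix.neg_mul, Matrix.one_mul, neg_neg]
    · rw [Matrix.mul_one, Matrix.neg_mul, Matrix.one_mul, add_neg_cancel]
    · rw [Matrix.mul_zero, Matrix.zero_mul, add_zero]
    · rw [Matrix.mul_one, Matrix.zero_mul, add_zero]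
  have z2 : Matrix.fromBlocks (0 : Matrix Unit Unit R) 1 (-1) (oneM σ) *
      (Matrix.fromBlocks (rR * L * cR) (-1) (1 : Matrix Unit Unit R) 0 -
      Matrix.fromRows (rR * L * QR) (0 : Matrix Unit ι R) * G *
        Matrix.fromCols (PR * L * cR) (0 : Matrix ι Unit R)) = 1 := by
    rw [hS, Matrix.fromBlocks_multiply, ← Matrix.fromBlocks_one]
    congr 1
    · rw [Matrix.zero_mul, zero_add, Matrix.one_mul]
    · rw [Matrix.zero_mul, Matrix.one_mul, add_zero]
    · rw [Matrix.neg_mul, Matrix.one_mul, Matrix.mul_one, neg_add_cancel]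
    · rw [Matrix.neg_mul, Matrix.one_mul, Matrix.mul_zero, neg_neg, add_zero]
  obtain ⟨s1, s2⟩ := schur _ _ _ _ _ _ h1 h2 z1 z2
  rw [← hp] at s1 s2
  refine ⟨_, s1, s2, ?_⟩
  ext i j
  rw [e2_col, e2_row]
  rfl

/-- Adding a row and a column. -/
def P3 (P : Matrix ι (Fin s) K) (a : Fin s) : Matrix (ι ⊕ Unit) (Fin s) K :=
  Matrix.fromRows P (ra K a)

/-- Adding a row and a column. -/
def Q3 (Q : Matrix (Fin s) ι K) (b : Fin s) : Matrix (Fin s) (ι ⊕ Unit) K :=
  Matrix.fromCols Q (ca K b)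

/-- The larger compression is invertible if the Schur complement is. -/
theorem unit_border {R : Type*} [Ring R] [Algebra K R] (L : Matrix (Fin s) (Fin s) R)
    (P : Matrix ι (Fin s) K) (Q : Matrix (Fin s) ι K) (a b : Fin s) (G : Matrix ι ι R)
    (h1 : P.map (algebraMap K R) * L * Q.map (algebraMap K R) * G = 1)
    (h2 : G * (P.map (algebraMap K R) * L * Q.map (algebraMap K R)) = 1)
    (h3 : IsUnit ((L - L * Q.map (algebraMap K R) * G * P.map (algebraMap K R) * L) a b)) :
    IsUnit ((P3 P a).map (algebraMap K R) * L * (Q3 Q b).map (algebraMap K R)) := by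
  have m1 : (P3 P a).map (algebraMap K R) = Matrix.fromRows (P.map (algebraMap K R))
      ((ra K a).map (algebraMap K R)) := by
    ext x y
    rcases x with x | x <;> rfl
  have m2 : (Q3 Q b).map (algebraMap K R) = Matrix.fromCols (Q.map (algebraMap K R))
      ((ca K b).map (algebraMap K R)) := by
    ext x y
    rcases y with y | y <;> rfl
  rw [m1, m2, Matrix.fromRows_mul, Matrix.fromRows_mul_fromCols]
  set PR := P.map (algebraMap K R)
  set QR := Q.map (algebraMap K R)
  set rR := (ra K a).map (algebraMap K R) with hrR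
  set cR := (ca K b).map (algebraMap K R) with hcR
  set σ := (L - L * QR * G * PR * L) a b with hσ
  have hs : rR * L * cR - rR * L * QR * G * (PR * L * cR) = oneM σ := by
    have h3 : rR * L * cR - rR * L * QR * G * (PR * L * cR) =
        rR * (L - L * QR * G * PR * L) * cR := by
      rw [Matrix.mul_sub, Matrix.sub_mul]
      simp only [Matrix.mul_assoc]
    rw [h3]
    ext i j
    rw [Matrix.mul_assoc, hrR, hcR, ra_mul, mul_ca]
    rfl
  obtain ⟨⟨w, z, hw, hz⟩, rfl : w = σ⟩ := h3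
  obtain ⟨s1, s2⟩ := schur (PR * L * QR) G (PR * L * cR) (rR * L * QR) (rR * L * cR) (oneM z) h1 h2
    (by
      rw [hs]
      ext i j
      simp [oneM, Matrix.mul_apply, hw])
    (by
      rw [hs]
      ext i j
      simp [oneM, Matrix.mul_apply, hz])
  exact ⟨⟨_, _, s1, s2⟩, rfl⟩

end sigma

end Pool.Agent.NCS
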