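import Mathlib
import Pool.Agent.NCS.Pen2

/-!
NCS: ranks of pencils at matrix points.
-/

set_option autoImplicit false

namespace Pool.Agent.NCS

open Pool.Agent.NCP Pool.Agent.NCR Polynomial

universe u

/-- Matrices of rank at least `m`. -/
theorem exists_PQ {K : Type*} [Field K] {I : Type*} [Fintype I] [DecidableEq I] {m : ℕ}
    (A0 : Matrix I I K) (hm : m ≤ A0.rank) :
    ∃ (P : Matrix (Fin m) I K) (Q : Matrix I (Fin m) K), P * A0 * Q = 1 := by
  let b : Module.Basis (Fin A0.rank) K (LinearMap.range A0.mulVecLin) :=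
    Module.finBasisOfFinrankEq K _ rfl
  have hx : ∀ j : Fin m, ∃ x : I → K, A0.mulVec x = (b (Fin.castLE hm j) : I → K) := fun j => by
    obtain ⟨x, hx⟩ := (b (Fin.castLE hm j)).2
    exact ⟨x, hx⟩
  choose x hx using hx
  let Q : Matrix I (Fin m) K := Matrix.of fun i j => x j i
  have hcol : (fun j => (A0 * Q).col j) = fun j => (b (Fin.castLE hm j) : I → K) := by
    funext j
    rw [← hx j]
    funext i
    rfl
  have hli : LinearIndependent K (fun j => (A0 * Q).col j) := by
    rw [hcol]
    exact (b.linearIndependent.map' (Submodule.subtype _) (Submodule.ker_subtype _)).comp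
      (Fin.castLE hm) (Fin.castLE_injective hm)
  have hinj : Function.Injective (A0 * Q).mulVec := Matrix.mulVec_injective_iff.2 hli
  obtain ⟨g, hg⟩ := (Matrix.toLin' (A0 * Q)).exists_leftInverse_of_injective
    (LinearMap.ker_eq_bot.2 hinj)
  refine ⟨LinearMap.toMatrix' g, Q, ?_⟩
  have h1 : LinearMap.toMatrix' (g ∘ₗ Matrix.toLin' (A0 * Q)) = 1 := by
    rw [hg, LinearMap.toMatrix'_id]
  rwa [LinearMap.toMatrix'_comp, LinearMap.toMatrix'_toLin', ← Matrix.mul_assoc] at h1

/-- Compressions and rank. -/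
theorem rank_sandwich {K : Type*} [Field K] {I κ : Type*} [Fintype I] [DecidableEq I] [Fintype κ]
    [DecidableEq κ] (M : Matrix I I K) (P : Matrix κ I K) (Q : Matrix I κ K)
    (h : IsUnit (P * M * Q)) : Fintype.card κ ≤ M.rank := by
  rw [← Matrix.rank_of_isUnit _ h]
  exact (Matrix.rank_mul_le_left _ _).trans (Matrix.rank_mul_le_right _ _)

theorem comp_mul_rect {I J L : Type*} {k S : Type*} [Fintype J] [Fintype k] [Ring S]
    (P : Matrix I J (Matrix k k S)) (Q : Matrix J L (Matrix k k S)) :
    Matrix.comp I L k k S (P * Q) = Matrix.comp I J k k S P * Matrix.comp J L k k S Q := by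
  ext ⟨a, x⟩ ⟨b, y⟩
  rw [Matrix.comp_apply, Matrix.mul_apply, Matrix.mul_apply, Matrix.sum_apply,
    Fintype.sum_prod_type]
  refine Finset.sum_congr rfl fun j _ => ?_
  rw [Matrix.mul_apply]
  rfl

/-- The rank of a family of matrices is generically at least the rank at a point. -/
theorem rank_family {K : Type*} [Field K] {I : Type*} [Fintype I] [DecidableEq I]
    (F : Matrix I I K[X]) (d : ℕ) (hd : ∀ i j, (F i j).natDegree ≤ d) (x : K) (m : ℕ)
    (hm : m ≤ (F.map (Polynomial.eval x)).rank) : ∃ G : K[X], G ≠ 0 ∧ G.natDegree ≤ m * d ∧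
      ∀ t : K, G.eval t ≠ 0 → m ≤ (F.map (Polynomial.eval t)).rank := by
  obtain ⟨P, Q, hPQ⟩ := exists_PQ (F.map (Polynomial.eval x)) hm
  set H : Matrix (Fin m) (Fin m) K[X] := P.map C * F * Q.map C with hH
  have hev : ∀ t : K, (Polynomial.evalRingHom t).mapMatrix H = P * F.map (Polynomial.eval t) * Q := by
    intro t
    ext i j
    rw [hH, RingHom.mapMatrix_apply, Matrix.map_mul, Matrix.map_mul]
    have e1 : (P.map C).map (Polynomial.evalRingHom t) = P := by
      ext a b
      simp
    have e2 : (Q.map C).map (Polynomial.evalRingHom t) = Q := by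
      ext a b
      simp
    rw [e1, e2]
    rfl
  refine ⟨H.det, ?_, ?_, ?_⟩
  · intro h
    have h1 := (Polynomial.evalRingHom x).map_det H
    rw [hev, hPQ, Matrix.det_one, h, map_zero] at h1
    exact zero_ne_one h1
  · have h1 := natDegree_det_le H d fun i j => by
      rw [hH, Matrix.mul_apply]
      refine Polynomial.natDegree_sum_le_of_forall_le _ _ fun a _ => ?_
      rw [Matrix.mul_apply]
      refine (Polynomial.natDegree_mul_le).trans ?_
      rw [Matrix.map_apply, Polynomial.natDegree_C, add_zero]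
      refine Polynomial.natDegree_sum_le_of_forall_le _ _ fun b _ => ?_
      refine (Polynomial.natDegree_mul_le).trans ?_
      rw [Matrix.map_apply, Polynomial.natDegree_C, zero_add]
      exact hd _ _
    rwa [Fintype.card_fin] at h1
  · intro t ht
    have h1 := (Polynomial.evalRingHom t).map_det H
    rw [hev, Polynomial.coe_evalRingHom] at h1
    have h2 : IsUnit (P * F.map (Polynomial.eval t) * Q) := by
      rw [Matrix.isUnit_iff_isUnit_det, isUnit_iff_ne_zero, ← h1]
      exact ht
    have h3 := rank_sandwich _ _ _ h2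
    rwa [Fintype.card_fin] at h3

variable {K : Type u} [Field K] {n : ℕ}

/-- The rank of the matrix `A_0 ⊗ 1 + ∑ A_i ⊗ Y_i`. -/
noncomputable def rkAt {K : Type*} [Field K] {n s N : ℕ} {F : Type*} [Field F] [Algebra K F]
    (A0 : Matrix (Fin s) (Fin s) K) (A : Fin n → Matrix (Fin s) (Fin s) K)
    (Y : Fin n → Matrix (Fin N) (Fin N) F) : ℕ :=
  (Matrix.comp (Fin s) (Fin s) (Fin N) (Fin N) F (penG A0 A Y)).rank

/-- An invertible compression bounds the rank from below. -/
theorem rkAt_of_unit {F : Type*} [Field F] [Algebra K F] {s N : ℕ} {ι : Type} [Fintype ι]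
    [DecidableEq ι] (A0 : Matrix (Fin s) (Fin s) K) (A : Fin n → Matrix (Fin s) (Fin s) K)
    (Y : Fin n → Matrix (Fin N) (Fin N) F) (P : Matrix ι (Fin s) (Matrix (Fin N) (Fin N) F))
    (Q : Matrix (Fin s) ι (Matrix (Fin N) (Fin N) F)) (h : IsUnit (P * penG A0 A Y * Q)) :
    Fintype.card ι * N ≤ rkAt A0 A Y := by
  rw [← isUnit_comp, comp_mul_rect, comp_mul_rect] at h
  have h1 := rank_sandwich _ _ _ h
  rwa [Fintype.card_prod, Fintype.card_fin] at h1

/-- A factorisation bounds the rank from above. -/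
theorem rkAt_le {F : Type*} [Field F] [Algebra K F] {s N : ℕ} {ι : Type} [Fintype ι]
    [DecidableEq ι] (A0 : Matrix (Fin s) (Fin s) K) (A : Fin n → Matrix (Fin s) (Fin s) K)
    (Y : Fin n → Matrix (Fin N) (Fin N) F) (P : Matrix (Fin s) ι (Matrix (Fin N) (Fin N) F))
    (Q : Matrix ι (Fin s) (Matrix (Fin N) (Fin N) F)) (h : penG A0 A Y = P * Q) :
    rkAt A0 A Y ≤ Fintype.card ι * N := by
  rw [rkAt, h, comp_mul_rect]
  refine (Matrix.rank_mul_le_right _ _).trans ((Matrix.rank_le_card_height _).trans ?_)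
  rw [Fintype.card_prod, Fintype.card_fin]

end Pool.Agent.NCS
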