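import Mathlib
import Pool.Agent.NCS.Rank

/-!
NCS: one step of the tower for pencils: the size of an invertible compression grows by one.
-/

set_option autoImplicit false

namespace Pool.Agent.NCS

open Pool.Agent.NCP Pool.Agent.NCR Polynomial

universe u

variable {K : Type u} [Field K] {n : ℕ}

theorem penG_sandwich0 {s : ℕ} {κ : Type} [Fintype κ] {R : Type*} [Ring R] [Algebra K R]
    (A0 : Matrix (Fin s) (Fin s) K) (A : Fin n → Matrix (Fin s) (Fin s) K)
    (P : Matrix κ (Fin s) K) (Q : Matrix (Fin s) κ K) (Y : Fin n → R) :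
    penG (P * A0 * Q) (fun i => P * A i * Q) Y =
      P.map (algebraMap K R) * penG A0 A Y * Q.map (algebraMap K R) := by
  have h := penG_sandwich A0 A P Q 0 Y
  rwa [add_zero, Matrix.map_zero _ (map_zero _), add_zero] at h

theorem unit_map {ι : Type} [Fintype ι] [DecidableEq ι] {R S : Type*} [Ring R] [Algebra K R]
    [Ring S] [Algebra K S] (f : R →ₐ[K] S) (A0 : Matrix ι ι K) (A : Fin n → Matrix ι ι K)
    (Y : Fin n → R) (h : IsUnit (penG A0 A Y)) : IsUnit (penG A0 A fun i => f (Y i)) := by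
  rw [← penG_map]
  exact h.map (RingHom.mapMatrix (m := ι) (f : R →+* S))

/-- `M_N → M_(k N)`. -/
noncomputable def em1 (K : Type u) [Field K] (k N : ℕ) : Matrix (Fin N) (Fin N) K →ₐ[K]
    Matrix (Fin (k * N)) (Fin (k * N)) K :=
  ((Matrix.reindexAlgEquiv K K (finProdFinEquiv : Fin k × Fin N ≃ Fin (k * N))).toAlgHom.comp
    (Matrix.compAlgEquiv (Fin k) (Fin N) K K).toAlgHom).comp (Matrix.scalarAlgHom (Fin k) K)

/-- `M_k → M_(k N)`. -/
noncomputable def em2 (K : Type u) [Field K] (k N : ℕ) : Matrix (Fin k) (Fin k) K →ₐ[K]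
    Matrix (Fin (k * N)) (Fin (k * N)) K :=
  ((Matrix.reindexAlgEquiv K K (finProdFinEquiv : Fin k × Fin N ≃ Fin (k * N))).toAlgHom.comp
    (Matrix.compAlgEquiv (Fin k) (Fin N) K K).toAlgHom).comp
      (Algebra.ofId K (Matrix (Fin N) (Fin N) K)).mapMatrix

theorem em1_apply (k N : ℕ) (Y : Matrix (Fin N) (Fin N) K) (x y : Fin k) (i j : Fin N) :
    em1 K k N Y (finProdFinEquiv (x, i)) (finProdFinEquiv (y, j)) = if x = y then Y i j else 0 := by
  have h1 : em1 K k N Y (finProdFinEquiv (x, i)) (finProdFinEquiv (y, j)) =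
      Matrix.comp (Fin k) (Fin k) (Fin N) (Fin N) K (Matrix.scalar (Fin k) Y)
        (finProdFinEquiv.symm (finProdFinEquiv (x, i)))
        (finProdFinEquiv.symm (finProdFinEquiv (y, j))) := rfl
  rw [h1, Equiv.symm_apply_apply, Equiv.symm_apply_apply, Matrix.comp_apply, Matrix.scalar_apply,
    Matrix.diagonal_apply]
  split_ifs <;> rfl

/-- The numbering of the indices. -/
def eN (s k N : ℕ) : (Fin s × Fin N) × Fin k ≃ Fin s × Fin (k * N) where
  toFun z := (z.1.1, finProdFinEquiv (z.2, z.1.2))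
  invFun w := ((w.1, (finProdFinEquiv.symm w.2).2), (finProdFinEquiv.symm w.2).1)
  left_inv z := by
    obtain ⟨⟨a, i⟩, x⟩ := z
    show ((a, (finProdFinEquiv.symm (finProdFinEquiv (x, i))).2),
      (finProdFinEquiv.symm (finProdFinEquiv (x, i))).1) = ((a, i), x)
    rw [Equiv.symm_apply_apply]
  right_inv w := by
    obtain ⟨a, w⟩ := w
    show (a, finProdFinEquiv ((finProdFinEquiv.symm w).1, (finProdFinEquiv.symm w).2)) = (a, w)
    rw [Prod.mk.eta, Equiv.apply_symm_apply]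

/-- The rank is multiplied by `k`. -/
theorem rk_em1 {s : ℕ} (A0 : Matrix (Fin s) (Fin s) K) (A : Fin n → Matrix (Fin s) (Fin s) K)
    {k N : ℕ} (Y : Fin n → Matrix (Fin N) (Fin N) K) :
    k * rkAt A0 A Y ≤ rkAt A0 A (fun i => em1 K k N (Y i)) := by
  classical
  set M0 := Matrix.comp (Fin s) (Fin s) (Fin N) (Fin N) K (penG A0 A Y) with hM0
  set M1 := Matrix.comp (Fin s) (Fin s) (Fin (k * N)) (Fin (k * N)) K
    (penG A0 A (fun i => em1 K k N (Y i))) with hM1
  obtain ⟨P, Q, hPQ⟩ := exists_PQ (m := rkAt A0 A Y) M0 le_rfl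
  have h1 : M1.submatrix (eN s k N) (eN s k N) = Matrix.blockDiagonal (fun _ : Fin k => M0) := by
    ext ⟨⟨a, i⟩, x⟩ ⟨⟨b, j⟩, y⟩
    rw [Matrix.submatrix_apply, Matrix.blockDiagonal_apply, hM1, hM0]
    have e1 : eN s k N ((a, i), x) = (a, finProdFinEquiv (x, i)) := rfl
    have e2 : eN s k N ((b, j), y) = (b, finProdFinEquiv (y, j)) := rfl
    rw [e1, e2, Matrix.comp_apply, Matrix.comp_apply, penG, penG, Matrix.of_apply, Matrix.of_apply,
      Matrix.add_apply, Matrix.add_apply, Matrix.sum_apply, Matrix.sum_apply,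
      Matrix.algebraMap_matrix_apply, Matrix.algebraMap_matrix_apply]
    simp only [Matrix.smul_apply, em1_apply]
    by_cases hxy : x = y
    · subst hxy
      simp only [if_true, EmbeddingLike.apply_eq_iff_eq, Prod.mk.injEq, true_and]
    · have h3 : ¬ (finProdFinEquiv (x, i) : Fin (k * N)) = finProdFinEquiv (y, j) := by
        intro h4
        exact hxy (Prod.mk.inj (finProdFinEquiv.injective h4)).1
      rw [if_neg h3]
      simp [hxy]
  have h2 : rkAt A0 A (fun i => em1 K k N (Y i)) =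
      (Matrix.blockDiagonal (fun _ : Fin k => M0)).rank := by
    rw [← h1, Matrix.rank_submatrix]
    rfl
  rw [h2]
  have h3 : Matrix.blockDiagonal (fun _ : Fin k => P) * Matrix.blockDiagonal (fun _ : Fin k => M0) *
      Matrix.blockDiagonal (fun _ : Fin k => Q) = 1 := by
    rw [← Matrix.blockDiagonal_mul, ← Matrix.blockDiagonal_mul, hPQ]
    exact Matrix.blockDiagonal_one
  have h4 := rank_sandwich _ (Matrix.blockDiagonal (fun _ : Fin k => P))
    (Matrix.blockDiagonal (fun _ : Fin k => Q)) (by rw [h3]; exact isUnit_one)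
  rw [Fintype.card_prod, Fintype.card_fin, Fintype.card_fin, mul_comm] at h4
  exact h4

/-- A pencil of large rank at some point and an invertible pencil: a common point. -/
theorem common [CharZero K] {κ : Type} {s : ℕ} [Fintype κ] [DecidableEq κ]
    (A0 : Matrix (Fin s) (Fin s) K) (A : Fin n → Matrix (Fin s) (Fin s) K) (B0 : Matrix κ κ K)
    (B : Fin n → Matrix κ κ K) {k N : ℕ} (Y : Fin n → Matrix (Fin N) (Fin N) K)
    (X' : Fin n → Matrix (Fin k) (Fin k) K) (hX : IsUnit (penG B0 B X')) :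
    ∃ (N' : ℕ) (Z : Fin n → Matrix (Fin N') (Fin N') K), N' = k * N ∧
      k * rkAt A0 A Y ≤ rkAt A0 A Z ∧ IsUnit (penG B0 B Z) := by
  have h1 := rk_em1 (k := k) A0 A Y
  have h2 := unit_map (em2 K k N) B0 B X' hX
  set V1 : Fin n → Matrix (Fin (k * N)) (Fin (k * N)) K := fun i => em1 K k N (Y i)
  set V0 : Fin n → Matrix (Fin (k * N)) (Fin (k * N)) K := fun i => em2 K k N (X' i)
  let F : Fin n → Matrix (Fin (k * N)) (Fin (k * N)) K[X] := fun i =>
    Matrix.of fun p q => C (V0 i p q) + X * C (V1 i p q - V0 i p q)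
  have hF : ∀ t : K, (fun i => (F i).map (Polynomial.aeval t)) =
      fun i => V0 i + t • (V1 i - V0 i) := by
    intro t
    funext i
    ext p q
    simp [F]
  have hF0 : (fun i => (F i).map (Polynomial.aeval (0 : K))) = V0 := by
    rw [hF]
    funext i
    rw [zero_smul, add_zero]
  have hF1 : (fun i => (F i).map (Polynomial.aeval (1 : K))) = V1 := by
    rw [hF]
    funext i
    rw [one_smul, add_sub_cancel]
  have hPC : ∀ t : K, (PC A0 A F).map (Polynomial.eval t) =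
      Matrix.comp (Fin s) (Fin s) (Fin (k * N)) (Fin (k * N)) K
        (penG A0 A fun i => (F i).map (Polynomial.aeval t)) := fun t =>
    PC_map A0 A (Polynomial.aeval t) F
  have hFd : ∀ i p q, (F i p q).natDegree ≤ 1 := by
    intro i p q
    show (C (V0 i p q) + X * C (V1 i p q - V0 i p q)).natDegree ≤ 1
    compute_degree
  obtain ⟨D1, d1, -, d1'⟩ := rank_family (PC A0 A F) 1 (natDegree_PC A0 A F 1 hFd) 1
    (k * rkAt A0 A Y) (by
      rw [hPC, hF1]
      exact h1)
  have d2 : (PC B0 B F).det ≠ 0 := by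
    intro h3
    rw [← hF0] at h2
    have h4 := (isUnit_penG_iff B0 B (Polynomial.aeval (0 : K)) F).1 h2
    rw [h3, map_zero] at h4
    exact h4 rfl
  obtain ⟨t, ht⟩ : ∃ t : K, (D1 * (PC B0 B F).det).eval t ≠ 0 := by
    by_contra hcon
    push Not at hcon
    exact mul_ne_zero d1 d2 (Polynomial.funext fun t => by rw [hcon t, Polynomial.eval_zero])
  rw [Polynomial.eval_mul, mul_ne_zero_iff] at ht
  refine ⟨k * N, fun i => (F i).map (Polynomial.aeval t), rfl, ?_, ?_⟩
  · have h3 := d1' t ht.1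
    rw [hPC] at h3
    exact h3
  · refine (isUnit_penG_iff B0 B (Polynomial.aeval t) F).2 ?_
    rw [Polynomial.coe_aeval_eq_eval]
    exact ht.2

/-- One step. -/
theorem pen_step [CharZero K] (ζ : ℕ → K) (S h : ℕ)
    (hζ : IsPrimitiveRoot (ζ (h + 1)) (kS n S (h + 1))) {s : ℕ} (A0 : Matrix (Fin s) (Fin s) K)
    (A : Fin n → Matrix (Fin s) (Fin s) K)
    (θ : ℕ → K) {ι : Type} [Fintype ι] [DecidableEq ι]
    (hrk : ∃ (N : ℕ) (Y : Fin n → Matrix (Fin N) (Fin N) K), Fintype.card ι * N < rkAt A0 A Y)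
    (hS : Fintype.card ι + 2 ≤ S) (P : Matrix ι (Fin s) K) (Q : Matrix (Fin s) ι K)
    (hX : IsUnit (penG (P * A0 * Q) (fun i => P * A i * Q) (Xu K ζ n S θ h))) :
    ∃ (a b : Fin s) (θ' : ℕ → K), IsUnit (penG (P3 P a * A0 * Q3 Q b)
      (fun i => P3 P a * A i * Q3 Q b) (Xu K ζ n S θ' (h + 1))) := by
  classical
  obtain ⟨N, Y, hY⟩ := hrk
  obtain ⟨N', Z, hN', hZ1, hZ2⟩ := common A0 A (P * A0 * Q) (fun i => P * A i * Q) Y _ hX
  -- a nonzero entry of the Schur complement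
  rw [penG_sandwich0] at hZ2
  have hZ3 : Fintype.card ι * N' < rkAt A0 A Z := by
    refine lt_of_lt_of_le ?_ hZ1
    calc Fintype.card ι * N' = kS n S h * (Fintype.card ι * N) := by rw [hN']; ring
      _ < kS n S h * rkAt A0 A Y := Nat.mul_lt_mul_of_pos_left hY (kS_pos n S h)
  obtain ⟨⟨L1, G1, g1, g2⟩, hL1 : L1 = _⟩ := hZ2
  subst hL1
  have hne : ∃ a b, (penG A0 A Z - penG A0 A Z *
      Q.map (algebraMap K (Matrix (Fin N') (Fin N') K)) * G1 *
      P.map (algebraMap K (Matrix (Fin N') (Fin N') K)) * penG A0 A Z :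
        Matrix (Fin s) (Fin s) (Matrix (Fin N') (Fin N') K)) a b ≠ 0 := by
    by_contra hcon
    push Not at hcon
    have e1 : penG A0 A Z - penG A0 A Z *
        Q.map (algebraMap K (Matrix (Fin N') (Fin N') K)) * G1 *
        P.map (algebraMap K (Matrix (Fin N') (Fin N') K)) * penG A0 A Z = 0 := by
      ext1 a b
      exact hcon a b
    rw [sub_eq_zero] at e1
    refine absurd (rkAt_le A0 A Z (penG A0 A Z *
      Q.map (algebraMap K (Matrix (Fin N') (Fin N') K)))
      (G1 * P.map (algebraMap K (Matrix (Fin N') (Fin N') K)) * penG A0 A Z) ?_) (not_le.2 hZ3)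
    refine e1.trans ?_
    simp only [Matrix.mul_assoc]
  obtain ⟨a, b, hab⟩ := hne
  -- the pencil of the Schur complement
  set M0 := P2 P a * A0 * Q2 Q b + C2 K ι with hM0
  set M : Fin n → Matrix (ι ⊕ (Unit ⊕ Unit)) (ι ⊕ (Unit ⊕ Unit)) K :=
    fun i => P2 P a * A i * Q2 Q b with hM
  have rZ : Rep M0 M (e2 K ι) (e2 K ι) Z _ := sig_rep A0 A P Q a b Z G1 g1 g2
  set α := Xu K ζ n S θ h with hα
  have uα : IsUnit (penG M0 M α) := by
    have h1 := hX
    rw [penG_sandwich0] at h1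
    obtain ⟨⟨L2, G2, k1, k2⟩, hL2 : L2 = _⟩ := h1
    subst hL2
    exact unit_of_rep _ _ _ _ _ _ (sig_rep A0 A P Q a b α G2 k1 k2)
  obtain ⟨W, hW, hW'⟩ := shift2 (P := S * S) (kS_pos n S h) α M0 M (e2 K ι) (e2 K ι) uα S
    (by
      rw [Fintype.card_sum, Fintype.card_sum, Fintype.card_unit]
      omega) le_rfl (mS n S) (tS S) le_rfl le_rfl Z _ rZ hab
  obtain ⟨ρ, hρ⟩ : ∃ ρ : K, W.eval ρ ≠ 0 := by
    by_contra hcon
    push Not at hcon
    exact hW (Polynomial.funext fun t => by rw [hcon t, Polynomial.eval_zero])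
  have hW2 := hW' ρ hρ
  set p := pv (kS n S h) (S * S) ρ
  set q := qv (kS n S h) (S * S) ρ
  let fE := fe (K := K) (kS n S h) (mS n S) (tS S)
  set β := sh2 K (S * S) (mS n S) (tS S) ρ α with hβ
  have hfβ : (fun i => fE.toAlgHom (sub2 α p q (tup K (mS n S) (tS S)) i)) = β :=
    funext fun i => fe_sub2 _ _ _ ρ α i
  obtain ⟨x2, hx2⟩ := rep_of_unit M0 M (e2 K ι) (e2 K ι) _ (unit_sub2 M0 M α uα p q (mS n S) (tS S))
  have hx2' : x2 ≠ 0 := by
    intro h1
    rw [h1] at hx2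
    exact hW2 hx2
  have rβ := rep_map fE.toAlgHom M0 M (e2 K ι) (e2 K ι) _ _ hx2
  rw [hfβ] at rβ
  have hxβ : fE.toAlgHom x2 ≠ 0 := by
    intro h1
    exact hx2' (fE.injective (h1.trans (map_zero _).symm))
  have uβ := unit_map fE.toAlgHom _ _ _ (unit_sub2 (P * A0 * Q) (fun i => P * A i * Q) α hX p q
    (mS n S) (tS S))
  rw [hfβ] at uβ
  -- the twist
  obtain ⟨F1, f1, f1'⟩ := twist_pen (N := kS n S (h + 1)) (ζ (h + 1)) hζ β M0 M _ _ _ rβ hxβ
  obtain ⟨F2, f2, f2'⟩ := twist_unit (N := kS n S (h + 1)) (ζ (h + 1)) hζ β _ _ uβ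
  obtain ⟨τ, μ, ht⟩ := exists_pt (F1 * F2) (mul_ne_zero f1 f2)
  rw [map_mul, mul_ne_zero_iff] at ht
  obtain ⟨x', hx', ux'⟩ := f1' τ μ ht.1
  have uγ := f2' τ μ ht.2
  refine ⟨a, b, fun l => if l = 3 * h then ρ else if l = 3 * h + 1 then τ else
    if l = 3 * h + 2 then μ else θ l, ?_⟩
  have h4 : Xu K ζ n S (fun l => if l = 3 * h then ρ else if l = 3 * h + 1 then τ else
      if l = 3 * h + 2 then μ else θ l) h = Xu K ζ n S θ h := by
    refine Xu_congr ζ S _ _ h fun l hl => ?_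
    rw [if_neg (by omega), if_neg (by omega), if_neg (by omega)]
  have h5 : Xu K ζ n S (fun l => if l = 3 * h then ρ else if l = 3 * h + 1 then τ else
      if l = 3 * h + 2 then μ else θ l) (h + 1) =
      fun i => tw (N := kS n S (h + 1)) (ζ (h + 1)) τ μ (β i) := by
    funext i
    rw [Xu, h4, if_pos rfl, if_neg (by omega), if_pos rfl, if_neg (by omega), if_neg (by omega),
      if_pos rfl]
  rw [h5, penG_sandwich0]
  rw [penG_sandwich0] at uγ
  obtain ⟨⟨L3, G3, k1, k2⟩, hL3 : L3 = _⟩ := uγ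
  subst hL3
  refine unit_border _ P Q a b G3 k1 k2 ?_
  have h6 := rep_unique _ _ _ _ _ _ _ hx' (sig_rep A0 A P Q a b _ G3 k1 k2)
  rw [← h6]
  exact ux'

end Pool.Agent.NCS
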