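import Mathlib
import Pool.Agent.NCS.Pen3

/-!
NCS: the noncommutative rank of pencils of bounded defect at the origin.
-/

set_option autoImplicit false

namespace Pool.Agent.NCS

open Pool.Agent.NCP Pool.Agent.NCR Polynomial

universe u

variable {K : Type u} [Field K] {n : ℕ}

theorem penG_zero {ι : Type} {R : Type*} [Ring R] [Algebra K R] (A0 : Matrix ι ι K)
    (A : Fin n → Matrix ι ι K) : penG A0 A (0 : Fin n → R) = A0.map (algebraMap K R) := by
  ext a b
  simp [penG]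

theorem rkAt_le_mul {F : Type*} [Field F] [Algebra K F] {s N : ℕ}
    (A0 : Matrix (Fin s) (Fin s) K) (A : Fin n → Matrix (Fin s) (Fin s) K)
    (Y : Fin n → Matrix (Fin N) (Fin N) F) : rkAt A0 A Y ≤ s * N := by
  refine (Matrix.rank_le_card_height _).trans ?_
  rw [Fintype.card_prod, Fintype.card_fin, Fintype.card_fin]

/-- The tower for pencils. -/
theorem pen_tower [CharZero K] (ζ : ℕ → K) {s : ℕ} (A0 : Matrix (Fin s) (Fin s) K)
    (A : Fin n → Matrix (Fin s) (Fin s) K) {m r : ℕ}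
    (hrk : ∃ (N : ℕ) (Y : Fin n → Matrix (Fin N) (Fin N) K), (m + r) * N < rkAt A0 A Y + N)
    (P0 : Matrix (Fin m) (Fin s) K) (Q0 : Matrix (Fin s) (Fin m) K)
    (h0 : P0 * A0 * Q0 = 1) (j : ℕ) (hj : j ≤ r)
    (hζ : ∀ i, 1 ≤ i → i ≤ j → IsPrimitiveRoot (ζ i) (kS n (s + 1) i)) :
    ∃ (ι : Type) (_ : Fintype ι) (_ : DecidableEq ι) (P : Matrix ι (Fin s) K)
      (Q : Matrix (Fin s) ι K) (θ : ℕ → K), Fintype.card ι = m + j ∧
      IsUnit (penG (P * A0 * Q) (fun i => P * A i * Q) (Xu K ζ n (s + 1) θ j)) := by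
  induction j with
  | zero =>
    refine ⟨Fin m, inferInstance, inferInstance, P0, Q0, 0, by simp, ?_⟩
    show IsUnit (penG (P0 * A0 * Q0) (fun i => P0 * A i * Q0)
      (0 : Fin n → Matrix (Fin 1) (Fin 1) K))
    rw [penG_zero, h0, Matrix.map_one _ (map_zero _) (map_one _)]
    exact isUnit_one
  | succ j ih =>
    obtain ⟨ι, i1, i2, P, Q, θ, h1, h2⟩ := ih (by omega) fun i hi hi' => hζ i hi (by omega)
    obtain ⟨N, Y, hY⟩ := hrk
    have h3 : (m + j) * N < rkAt A0 A Y := by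
      have h4 : (m + (j + 1)) * N ≤ (m + r) * N := Nat.mul_le_mul_right N (by omega)
      have h5 : (m + (j + 1)) * N = (m + j) * N + N := by ring
      omega
    have h4 : m + j < s := by
      have h5 := h3.trans_le (rkAt_le_mul A0 A Y)
      exact lt_of_mul_lt_mul_right h5 (Nat.zero_le N)
    obtain ⟨a, b, θ', h5⟩ := pen_step ζ (s + 1) j (hζ (j + 1) (by omega) le_rfl) A0 A θ
      ⟨N, Y, by rw [h1]; exact h3⟩ (by omega) P Q h2
    refine ⟨ι ⊕ Unit, inferInstance, inferInstance, P3 P a, Q3 Q b, θ', ?_, h5⟩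
    rw [Fintype.card_sum, h1, Fintype.card_unit]
    omega

/-- Pencils and extensions of the field of constants. -/
theorem penG_mp {L : Type u} [Field L] [Algebra K L] {ι : Type} {R : Type*} [Ring R]
    [Algebra K R] [Algebra L R] [IsScalarTower K L R] (A0 : Matrix ι ι K)
    (A : Fin n → Matrix ι ι K) (Y : Fin n → R) :
    penG (A0.map (algebraMap K L)) (fun i => (A i).map (algebraMap K L)) Y = penG A0 A Y := by
  ext a b
  rw [penG, penG, Matrix.of_apply, Matrix.of_apply, Matrix.map_apply,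
    ← IsScalarTower.algebraMap_apply]
  congr 1
  refine Finset.sum_congr rfl fun i _ => ?_
  rw [Matrix.map_apply, algebraMap_smul]

theorem rkAt_mp {L : Type u} [Field L] [Algebra K L] {s N : ℕ} (A0 : Matrix (Fin s) (Fin s) K)
    (A : Fin n → Matrix (Fin s) (Fin s) K) (Y : Fin n → Matrix (Fin N) (Fin N) L) :
    rkAt (A0.map (algebraMap K L)) (fun i => (A i).map (algebraMap K L)) Y = rkAt A0 A Y := by
  rw [rkAt, rkAt, penG_mp]

theorem rkAt_ext {L : Type u} [Field L] [Algebra K L] {s N : ℕ} (A0 : Matrix (Fin s) (Fin s) K)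
    (A : Fin n → Matrix (Fin s) (Fin s) K) (Y : Fin n → Matrix (Fin N) (Fin N) K) :
    rkAt A0 A Y ≤ rkAt A0 A (fun i => (Y i).map (algebraMap K L)) := by
  set M0 := Matrix.comp (Fin s) (Fin s) (Fin N) (Fin N) K (penG A0 A Y) with hM0
  obtain ⟨P, Q, hPQ⟩ := exists_PQ (m := rkAt A0 A Y) M0 le_rfl
  have h1 : Matrix.comp (Fin s) (Fin s) (Fin N) (Fin N) L
      (penG A0 A fun i => (Y i).map (algebraMap K L)) = M0.map (algebraMap K L) := by
    have h2 := penG_map A0 A ((Algebra.ofId K L).mapMatrix (m := Fin N)) Y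
    have h3 : (fun i => ((Algebra.ofId K L).mapMatrix (m := Fin N)) (Y i)) =
        fun i => (Y i).map (algebraMap K L) := rfl
    rw [h3] at h2
    rw [← h2, hM0]
    rfl
  have h2 := rank_sandwich (M0.map (algebraMap K L)) (P.map (algebraMap K L))
    (Q.map (algebraMap K L)) (by
      rw [← Matrix.map_mul, ← Matrix.map_mul, hPQ, Matrix.map_one _ (map_zero _) (map_one _)]
      exact isUnit_one)
  rw [← h1, Fintype.card_fin] at h2
  exact h2

/-- One parameter. -/
theorem replace_rank [CharZero K] (ζ : ℕ → K) {s : ℕ} (S h R : ℕ) (A0 : Matrix (Fin s) (Fin s) K)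
    (A : Fin n → Matrix (Fin s) (Fin s) K) (B : ℕ) (hB : s * kS n S h ^ 3 ≤ B) (θ : ℕ → K) (m : ℕ)
    (hθ : R ≤ rkAt A0 A (Xu K ζ n S θ h)) :
    ∃ c : ℕ, c ≤ B ∧ R ≤ rkAt A0 A (Xu K ζ n S (Function.update θ m (c : K)) h) := by
  obtain ⟨X', e1, e2⟩ := coord_family (n := n) ζ S h θ m
  have hPC : ∀ t : K, (PC A0 A X').map (Polynomial.eval t) =
      Matrix.comp (Fin s) (Fin s) (Fin (kS n S h)) (Fin (kS n S h)) K
        (penG A0 A fun i => (X' i).map (Polynomial.aeval t)) := fun t =>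
    PC_map _ _ (Polynomial.aeval t) X'
  have hev : ∀ t : K, ((PC A0 A X').map (Polynomial.eval t)).rank =
      rkAt A0 A (Xu K ζ n S (Function.update θ m t) h) := by
    intro t
    rw [hPC, e2]
    rfl
  have e0 : R ≤ s * kS n S h := le_trans hθ (rkAt_le_mul _ _ _)
  obtain ⟨G, g1, g2, g3⟩ := rank_family (PC A0 A X') (kS n S h * kS n S h)
    (natDegree_PC _ _ _ _ e1) (θ m) R (by
      rw [hev, Function.update_eq_self]
      exact hθ)
  have g4 : G.natDegree ≤ B := by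
    refine g2.trans (le_trans ?_ hB)
    calc R * (kS n S h * kS n S h) ≤ s * kS n S h * (kS n S h * kS n S h) :=
          Nat.mul_le_mul_right _ e0
      _ = s * kS n S h ^ 3 := by ring
  obtain ⟨c, hc, hc'⟩ : ∃ c : ℕ, c ≤ B ∧ G.eval (c : K) ≠ 0 := by
    by_contra hcon
    push Not at hcon
    apply g1
    refine Polynomial.eq_zero_of_natDegree_lt_card_of_eval_eq_zero (ι := Fin (B + 1)) G
      (f := fun x => ((x : ℕ) : K)) ?_ ?_ ?_
    · intro a b hab
      exact Fin.ext (Nat.cast_injective hab)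
    · intro c
      exact hcon (c : ℕ) (Nat.lt_succ_iff.1 c.2)
    · rw [Fintype.card_fin]
      exact Nat.lt_succ_of_le g4
  refine ⟨c, hc, ?_⟩
  rw [← hev]
  exact g3 _ hc'

/-- **The noncommutative rank, up to `rank A0 + r`.** -/
theorem rank_hit {L : Type u} [Field L] [Algebra K L] [CharZero K] (ζ : ℕ → L) {s : ℕ} (r : ℕ)
    (A0 : Matrix (Fin s) (Fin s) K) (A : Fin n → Matrix (Fin s) (Fin s) K)
    (hrk : ∃ (N : ℕ) (Y : Fin n → Matrix (Fin N) (Fin N) K),
      (A0.rank + r) * N < rkAt A0 A Y + N)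
    (hζ : ∀ j, 1 ≤ j → j ≤ r → IsPrimitiveRoot (ζ j) (kS n (s + 1) j)) (B : ℕ)
    (hB : s * kS n (s + 1) r ^ 3 ≤ B) :
    ∃ c : ℕ → ℕ, (∀ l, c l ≤ B) ∧ (A0.rank + r) * kS n (s + 1) r ≤
      rkAt A0 A (Xu L ζ n (s + 1) (fun l => (c l : L)) r) := by
  have : CharZero L := charZero_of_injective_algebraMap (algebraMap K L).injective
  obtain ⟨P, Q, hPQ⟩ := exists_PQ (m := A0.rank) A0 le_rfl
  have hPQ' : P.map (algebraMap K L) * A0.map (algebraMap K L) * Q.map (algebraMap K L) = 1 := by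
    rw [← Matrix.map_mul, ← Matrix.map_mul, hPQ, Matrix.map_one _ (map_zero _) (map_one _)]
  obtain ⟨N, Y, hY⟩ := hrk
  have hY' := (rkAt_ext (L := L) A0 A Y).trans_eq (rkAt_mp (L := L) A0 A _).symm
  have hrk' : ∃ (N : ℕ) (Y' : Fin n → Matrix (Fin N) (Fin N) L), (A0.rank + r) * N <
      rkAt (A0.map (algebraMap K L)) (fun i => (A i).map (algebraMap K L)) Y' + N :=
    ⟨N, fun i => (Y i).map (algebraMap K L),
      lt_of_lt_of_le hY (Nat.add_le_add_right hY' N)⟩
  obtain ⟨ι, i1, i2, P', Q', θ, h1, h2⟩ := pen_tower ζ (A0.map (algebraMap K L))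
    (fun i => (A i).map (algebraMap K L)) hrk' (P.map (algebraMap K L)) (Q.map (algebraMap K L))
    hPQ' r le_rfl hζ
  rw [penG_sandwich0] at h2
  have h3 := rkAt_of_unit _ _ _ _ _ h2
  rw [h1] at h3
  obtain ⟨c, h5, h6⟩ := grid_gen ζ (s + 1) r (fun x => (A0.rank + r) * kS n (s + 1) r ≤
    rkAt (A0.map (algebraMap K L)) (fun i => (A i).map (algebraMap K L)) x) B
    (fun θ m hθ => replace_rank ζ (s + 1) r _ _ _ B hB θ m hθ) θ h3
  refine ⟨c, h5, ?_⟩
  rw [rkAt_mp] at h6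
  exact h6

end Pool.Agent.NCS
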