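import Mathlib
import Pool.Agent.NCS.Pen4

/-!
NCS: the finite sets of explicit tuples; the final theorems.
-/

set_option autoImplicit false

namespace Pool.Agent.NCS

open Pool.Agent.NCP Pool.Agent.NCR

universe u

/-- The explicit tuples: the `3 h` parameters are natural numbers at most `B`. -/
noncomputable def point (L : Type u) [Field L] (ζ : ℕ → L) (n S h : ℕ) {B : ℕ}
    (c : Fin (3 * h) → Fin (B + 1)) : Fin n → Matrix (Fin (kS n S h)) (Fin (kS n S h)) L :=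
  Xu L ζ n S (fun l => if hl : l < 3 * h then ((c ⟨l, hl⟩ : ℕ) : L) else 0) h

theorem point_eq {L : Type u} [Field L] (ζ : ℕ → L) (n S h : ℕ) {B : ℕ} (c : ℕ → ℕ)
    (hc : ∀ l, c l ≤ B) : Xu L ζ n S (fun l => (c l : L)) h =
      point L ζ n S h (fun l => (⟨c l, Nat.lt_succ_of_le (hc l)⟩ : Fin (B + 1))) := by
  refine Xu_congr ζ S _ _ h fun l hl => ?_
  rw [dif_pos hl]

theorem kS_formula (n S h : ℕ) :
    kS n S h = ((n * S ^ 4 * (S ^ 3 + 1) ^ 4 + 1) * (S ^ 3 + 1)) ^ h := by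
  rw [kS_eq, mS, tS]
  congr 1
  ring

/-- Rational formulas. -/
theorem formula_final {K L : Type u} [Field K] [CharZero K] [Field L] [Algebra K L] (ζ : ℕ → L)
    (n s h : ℕ) (hζ : ∀ j, 1 ≤ j → j ≤ h + 1 → IsPrimitiveRoot (ζ j) (kS n (2 * s) j))
    (φ : RExp K n) (hs : φ.size ≤ s) (hφ : Lv h φ)
    (hY : ∃ (N : ℕ) (Y : Fin n → Matrix (Fin N) (Fin N) K), φ.Defined Y ∧ φ.eval Y ≠ 0) :
    ∃ c : Fin (3 * (h + 1)) → Fin (2 * (s + 1) ^ 2 * kS n (2 * s) (h + 1) ^ 3 + 1),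
      φ.Defined (point L ζ n (2 * s) (h + 1) c) ∧
      IsUnit (φ.eval (point L ζ n (2 * s) (h + 1) c)) := by
  obtain ⟨N, Y, h1, h2⟩ := hY
  obtain ⟨c, h3, h4⟩ := level_hit2 ζ s h hζ φ hs hφ N Y h1 h2 _ le_rfl
  rw [point_eq ζ n (2 * s) (h + 1) c h3] at h4
  exact ⟨_, h4⟩

/-- Linear matrices. -/
theorem rank_final {K L : Type u} [Field K] [CharZero K] [Field L] [Algebra K L] (ζ : ℕ → L)
    (n s h : ℕ) (hζ : ∀ j, 1 ≤ j → j ≤ h → IsPrimitiveRoot (ζ j) (kS n (s + 1) j))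
    (A0 : Matrix (Fin s) (Fin s) K) (A : Fin n → Matrix (Fin s) (Fin s) K)
    (hrk : ∃ (N : ℕ) (Y : Fin n → Matrix (Fin N) (Fin N) K),
      (A0.rank + h) * N < rkAt A0 A Y + N) :
    ∃ c : Fin (3 * h) → Fin (s * kS n (s + 1) h ^ 3 + 1),
      (A0.rank + h) * kS n (s + 1) h ≤ rkAt A0 A (point L ζ n (s + 1) h c) := by
  obtain ⟨c, h3, h4⟩ := rank_hit ζ h A0 A hrk hζ _ le_rfl
  rw [point_eq ζ n (s + 1) h c h3] at h4
  exact ⟨_, h4⟩

end Pool.Agent.NCS
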